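import Pool.Agent.Lib.MP_d439b2_co.CE.Spec

/-!
# MP_d439b2_co, CE: Claim A
-/

set_option autoImplicit false

namespace Pool.Agent.MPd439b2.CE

open Pool.Agent.MPd439b2

private theorem clA_sees {V : Type} {G : SimpleGraph V} {σ : Bool} {m m' : ℕ} {R : ℕ → ℕ → V} {z : V}
    {P : Pos} (h : Sees G σ m R z P) {κ : ℕ → ℕ} (h1 : ∀ k < m', κ k < m) :
    Sees G σ m' (fun j k => R j (κ k)) z P := by
  obtain ⟨a, ha, hP⟩ := h
  exact ⟨a, ha.sub h1, hP⟩

theorem clA (h : S_Sl) (_h' : S_R1) : S_ClA := by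
  intro b K m
  obtain ⟨M, hM⟩ := h b (max m (2 * K + 1))
  refine ⟨max M 1, ?_⟩
  intro V _ n S G i hC hK z q hz hq hmin τ T hT hq'
  have hTM : Rain S G i τ M T :=
    hT.sub (κ := id) (fun k hk => lt_of_lt_of_le hk (le_max_left _ _)) (fun k l h _ => h)
  obtain ⟨κ, hκ, ⟨a, ha⟩, -⟩ := (hM V n S G i hC.ex).1 τ T z hTM
  have hT' : Rain S G i τ (max m (2 * K + 1)) (fun j k => T j (κ k)) := hTM.sub hκ.lt hκ.mono
  have hmm : ∀ k < m, k < max m (2 * K + 1) := fun k hk => lt_of_lt_of_le hk (le_max_left _ _)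
  have hKm : ∀ k < 2 * K + 1, k < max m (2 * K + 1) := fun k hk =>
    lt_of_lt_of_le hk (le_max_right _ _)
  have hlt : ∀ k < max m (2 * K + 1), κ k < max M 1 := fun k hk =>
    lt_of_lt_of_le (hκ.lt k hk) (le_max_left _ _)
  rcases hpos : posZ τ a with _ | _ | _
  · -- position `L`
    exfalso
    have h1 : Qz S G i K z (S.ρ (LL τ (fun j k => T j (κ k)) K)) := by
      refine ⟨τ, fun j k => T j (κ k), hT'.sub (κ := id) hKm (fun k l h _ => h), Or.inl ⟨?_, rfl⟩⟩
      exact ⟨a, ha.sub (κ := id) hKm, hpos⟩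
    have h2 : q ≤ S.ρ (LL τ T (κ K)) := hmin _ h1
    have h3 := (hq' (κ K) (hlt K (hKm K (by omega)))).1
    omega
  · -- position `I`
    refine ⟨κ, ⟨fun k hk => hlt k (hmm k hk), fun k l hkl hl => hκ.mono k l hkl (hmm l hl)⟩, ?_⟩
    exact ⟨a, ha.sub (κ := id) hmm, hpos⟩
  · -- position `R`
    exfalso
    have hT1 : Rain S G i τ K (fun j k => T j (κ k)) :=
      hT'.sub (κ := id) (fun k hk => hKm k (by omega)) (fun k l h _ => h)
    have hS1 : Sees G τ K (fun j k => T j (κ k)) z Pos.R :=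
      ⟨a, ha.sub (κ := id) (fun k hk => hKm k (by omega)), hpos⟩
    have hb : ∀ k < K, S.ρ (LL τ (fun j k => T j (κ k)) k) < q ∧
        q ≤ S.ρ (RL τ (fun j k => T j (κ k)) k) := fun k hk =>
      hq' (κ k) (hlt k (hKm k (by omega)))
    obtain ⟨σ, U, hU, ⟨hs, hqU⟩ | ⟨hs, hqU⟩⟩ := hq
    · have hU2 : Rain S G i σ K (fun j l => U j (K + 1 + l)) :=
        hU.sub (κ := fun l => K + 1 + l) (fun k hk => by omega) (fun k l h _ => by omega)
      have hS2 : Sees G σ K (fun j l => U j (K + 1 + l)) z Pos.L :=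
        clA_sees hs (κ := fun l => K + 1 + l) (fun k hk => by omega)
      obtain ⟨k, hk, l, hl, halt⟩ := hK τ σ _ _ z _ _ hT1 hU2 hz hS1 hS2
      have hd : S.ρ (LL σ (fun j l => U j (K + 1 + l)) l) < q := by
        rw [hqU]
        exact hU.dec K (K + 1 + l) (by omega) (by omega)
      have he : q < S.ρ (RL σ (fun j l => U j (K + 1 + l)) l) := by
        rw [hqU]
        exact hU.bet K (by omega) (K + 1 + l) (by omega)
      have hbk := hb k hk
      rcases halt with ⟨_, _, h3⟩ | ⟨_, _, h3⟩ | ⟨h1, _⟩ | ⟨h1, _⟩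
      · exact absurd (h3.1 rfl) (by decide)
      · exact absurd (h3.2 rfl) (by decide)
      · omega
      · omega
    · have hU1 : Rain S G i σ K U :=
        hU.sub (κ := id) (fun k hk => by simp only [id]; omega) (fun k l h _ => h)
      have hS2 : Sees G σ K U z Pos.I :=
        clA_sees hs (κ := id) (fun k hk => by simp only [id]; omega)
      obtain ⟨k, hk, l, hl, halt⟩ := hK τ σ _ _ z _ _ hT1 hU1 hz hS1 hS2
      have hd : S.ρ (RL σ U l) < q := by
        rw [hqU]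
        exact hU.inc l K hl (by omega)
      have he : S.ρ (LL σ U l) < q := by
        rw [hqU]
        exact hU.bet l (by omega) K (by omega)
      have hbk := hb k hk
      rcases halt with ⟨_, _, h3⟩ | ⟨_, h1, _⟩ | ⟨h1, _⟩ | ⟨_, h3⟩
      · exact absurd (h3.1 rfl) (by decide)
      · omega
      · omega
      · exact h3.1 ⟨rfl, rfl⟩

end Pool.Agent.MPd439b2.CE
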