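import Pool.Agent.Lib.MP_d439b2_co.CE.Spec

/-!
# MP_d439b2_co, CE: good intervals for both signs (E13)
-/

set_option autoImplicit false

namespace Pool.Agent.MPd439b2.CE

open Pool.Agent.MPd439b2

section

variable {V : Type} {n : ℕ}

private theorem Good_ρ (S : X2.St V n) (i : Fin n) (B : ℕ) (hB : ∀ x, S.ρ x ≤ B) {x : V}
    (hx : S.c x = i) : (rvI S i B hB).ρ x = B - S.ρ x := if_pos hx

private theorem Good_cx {S : X2.St V n} {G : SimpleGraph V} {i : Fin n} {b : ℕ}
    (h : Cx S G i b) (B : ℕ) (hB : ∀ x, S.ρ x ≤ B) : Cx (rvI S i B hB) G i b where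
  ex :=
    { typ := h.ex.typ
      deg := h.ex.deg
      sgn := by
        intro j hj k
        have hji : j ≠ i := by
          rintro rfl
          have h1 : S.t j = true := hj
          rw [h.st] at h1
          exact Bool.false_ne_true h1
        have h2 : (rvI S i B hB).s j k = S.s j k := if_neg hji
        rw [h2]
        exact h.ex.sgn j hj k }
  st := h.st
  hH := h.hH
  hJ := h.hJ

private theorem Good_LL (σ : Bool) (R : ℕ → ℕ → V) (k : ℕ) : LL (!σ) R k = RL σ R k := by
  cases σ <;> rfl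

private theorem Good_RL (σ : Bool) (R : ℕ → ℕ → V) (k : ℕ) : RL (!σ) R k = LL σ R k := by
  cases σ <;> rfl

private theorem Good_rain {S : X2.St V n} {G : SimpleGraph V} {i : Fin n} {σ : Bool} {m : ℕ}
    {R : ℕ → ℕ → V} (h : Rain S G i σ m R) (B : ℕ) (hB : ∀ x, S.ρ x ≤ B) :
    Rain (rvI S i B hB) G i (!σ) m R :=
  { toDR := h.toDR
    cu := h.cu
    ct := h.ct
    cls := h.cls
    tc := h.tc
    ts := h.ts
    tw := h.tw
    mate := h.mate
    exc := h.exc
    dec := fun k l hkl hl => by
      rw [Good_LL, Good_LL, Good_ρ S i B hB (c_RL h hl), Good_ρ S i B hB (c_RL h (by omega))]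
      have h1 := h.inc k l hkl hl
      have h2 := hB (RL σ R l)
      omega
    inc := fun k l hkl hl => by
      rw [Good_RL, Good_RL, Good_ρ S i B hB (c_LL h hl), Good_ρ S i B hB (c_LL h (by omega))]
      have h1 := h.dec k l hkl hl
      have h2 := hB (LL σ R k)
      omega
    bet := fun k hk l hl => by
      rw [Good_LL, Good_RL, Good_ρ S i B hB (c_RL h hk), Good_ρ S i B hB (c_LL h hl)]
      have h1 := h.bet l hl k hk
      have h2 := hB (RL σ R k)
      omega }

end

theorem good (h : S_GoodP) : S_Good := by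
  intro b
  obtain ⟨N, M, hM, hmain⟩ := h b
  refine ⟨N, M, hM, ?_⟩
  intro V _ n S G i hC σ R hR
  cases σ with
  | true => exact hmain V n S G i hC R hR
  | false =>
    obtain ⟨B, hB0⟩ := (Set.finite_range S.ρ).bddAbove
    have hB : ∀ x, S.ρ x ≤ B := fun x => hB0 ⟨x, rfl⟩
    obtain ⟨p', q', e1, e2, e3, e4, e5⟩ :=
      hmain V n (rvI S i B hB) G i (Good_cx hC B hB) R (Good_rain hR B hB)
    have hL : ∀ k < M, (rvI S i B hB).ρ (LL true R k) = B - S.ρ (RL false R k) := fun k hk =>
      Good_ρ S i B hB (c_RL hR hk)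
    have hR' : ∀ k < M, (rvI S i B hB).ρ (RL true R k) = B - S.ρ (LL false R k) := fun k hk =>
      Good_ρ S i B hB (c_LL hR hk)
    rw [hL (M - 1) (by omega)] at e1
    rw [hL 0 (by omega)] at e2
    rw [hR' 0 (by omega)] at e3
    rw [hR' (M - 1) (by omega)] at e4
    have b1 := hB (RL false R (M - 1))
    have b2 := hB (RL false R 0)
    have b3 := hB (LL false R (M - 1))
    have b4 := hB (LL false R 0)
    refine ⟨B + 1 - q', B + 1 - p', by omega, by omega, by omega, by omega, ?_⟩
    intro τ T hT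
    obtain ⟨f1, f2⟩ := e5 (!τ) T (Good_rain hT B hB)
    constructor
    · intro g
      refine f2 fun k hk => ?_
      obtain ⟨g1, g2, g3⟩ := g k hk
      rw [Good_LL, Good_RL, Good_ρ S i B hB (c_RL hT hk), Good_ρ S i B hB (c_LL hT hk)]
      have c1 := hB (RL τ T k)
      have c2 := hB (LL τ T k)
      omega
    · intro g
      refine f1 fun k hk => ?_
      obtain ⟨g1, g2, g3⟩ := g k hk
      rw [Good_LL, Good_RL, Good_ρ S i B hB (c_RL hT hk), Good_ρ S i B hB (c_LL hT hk)]
      have c1 := hB (RL τ T k)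
      have c2 := hB (LL τ T k)
      omega

end Pool.Agent.MPd439b2.CE
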