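import Pool.Agent.Lib.MP_d439b2_co.CE.Spec

/-!
# MP_d439b2_co, CE, E12: claim C, good intervals of positive rainbows
-/

set_option autoImplicit false

namespace Pool.Agent.MPd439b2.CE

open Pool.Agent.MPd439b2

/-- a vertex of the class `i` which is not exceptional with `c` and the table of `c` -/
private theorem goodP_tab {V : Type} {n : ℕ} {S : X2.St V n} {G : SimpleGraph V} {m : ℕ}
    {R : ℕ → ℕ → V} {c : V} {a : ℕ → Bool} (ha : HZ G m R c a) (hN : Nx S G m R c) {j : ℕ}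
    (hj : j < 5) (hm : 0 < m) {P : Prop} (hP : S.G.Adj (R j 0) c ↔ P) : a j = true ↔ P := by
  rw [← ha.rel j hj 0 hm, ← hP]
  have h1 := hN j hj 0 hm
  unfold BT.Exc at h1
  rw [not_not] at h1
  rw [← h1, SimpleGraph.adj_comm]

private theorem goodP_pos : ∀ σ u v : Bool, pos σ u v = Pos.I → (u, v) = cI := by
  intro σ u v
  cases σ <;> cases u <;> cases v <;> unfold pos cI <;> simp

private theorem goodP_pos' : ∀ u v : Bool, (u, v) ≠ cB → (u = false → v = false) →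
    pos true u v = Pos.L ∨ pos true u v = Pos.I := by
  intro u v
  cases u <;> cases v <;> unfold pos cB <;> simp

theorem goodP (h1 : S_R1) (h2 : S_R5) (h3 : S_Ord) (h4 : S_Sl) (h5 : S_Two) (h6 : S_Snd)
    (h7 : S_ClA) (h8 : S_ClB) : S_GoodP := by
  intro b
  obtain ⟨K, hK⟩ := h5 b
  obtain ⟨M₀, hM₀⟩ := h6 b
  obtain ⟨A, hA⟩ := h4 b 16
  obtain ⟨M₁, hM1, hM2⟩ : ∃ M₁, M₀ ≤ M₁ ∧ 2 * K + 1 ≤ M₁ :=
    ⟨max M₀ (2 * K + 1), le_max_left _ _, le_max_right _ _⟩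
  obtain ⟨m, hm1, hm2⟩ : ∃ m, 2 * K + 1 ≤ m ∧ A ≤ m :=
    ⟨max (2 * K + 1) A, le_max_left _ _, le_max_right _ _⟩
  obtain ⟨N₁, hN₁⟩ := h7 b K m
  obtain ⟨N₂, hN₂⟩ := h4 b m
  obtain ⟨N, hN1, hN2⟩ : ∃ N, N₁ ≤ N ∧ N₂ ≤ N := ⟨max N₁ N₂, le_max_left _ _, le_max_right _ _⟩
  refine ⟨N, 2 * M₁ + 1, by omega, ?_⟩
  intro V _ n S G i hC R hR
  have hK' := hK V n S G i hC
  have hA' := (hA V n S G i hC.ex).1
  have hN₂' := (hN₂ V n S G i hC.ex).1
  obtain ⟨c, hc⟩ : ∃ c, c = R 1 M₁ := ⟨_, rfl⟩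
  obtain ⟨z, hz⟩ : ∃ z, z = R 2 M₁ := ⟨_, rfl⟩
  have hAn : An S G i z := by
    rw [hz]
    exact hM₀ V n S G i hC true M₁ R hM1 hR
  obtain ⟨⟨q₀, hq₀, hq₀'⟩, hqR⟩ := h8 b K V n S G i hC hK' M₁ R hM2 hR (hz ▸ hAn)
  rw [← hz] at hq₀ hqR
  -- `c` and `z`
  have hcz : c ≠ z := by
    rw [hc, hz]
    exact hR.dis 1 (by norm_num) 2 (by norm_num) M₁ (by omega) M₁ (by omega) (Or.inl (by norm_num))
  have hcz' : ¬ G.Adj c z := by
    rw [hc, hz, hR.dg 1 (by norm_num) 2 (by norm_num) (by norm_num) M₁ (by omega)]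
    decide
  -- `q`
  classical
  have hexq : ∃ q, Qz S G i K z q := ⟨q₀, hq₀⟩
  obtain ⟨q, hq, hqmin⟩ : ∃ q, Qz S G i K z q ∧ ∀ q', Qz S G i K z q' → q ≤ q' :=
    ⟨Nat.find hexq, Nat.find_spec hexq, fun q' h => Nat.find_min' hexq h⟩
  -- `p`
  have hadj0 : S.G.Adj (R 0 M₁) c := by
    have e1 : G.Adj (R 0 M₁) (R 1 M₁) := by
      rw [hR.dg 0 (by norm_num) 1 (by norm_num) (by norm_num) M₁ (by omega)]
      decide
    have e2 : ¬ BT.Exc S G (R 0 M₁) (R 1 M₁) := by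
      intro he
      have := (hR.exc 0 (by norm_num) 1 (by norm_num) M₁ (by omega) M₁ (by omega) he).2
      omega
    unfold BT.Exc at e2
    rw [not_not] at e2
    rw [hc]
    exact e2.2 e1
  have hexp : ∃ p, ∃ x, S.c x = i ∧ S.G.Adj x c ∧ S.ρ x = p :=
    ⟨_, R 0 M₁, hR.cu M₁ (by omega), hadj0, rfl⟩
  obtain ⟨p, ⟨x₀, hx₀, hx₀c, hx₀p⟩, hpmin⟩ : ∃ p, (∃ x, S.c x = i ∧ S.G.Adj x c ∧ S.ρ x = p) ∧
      ∀ x, S.c x = i → S.G.Adj x c → p ≤ S.ρ x :=
    ⟨Nat.find hexp, Nat.find_spec hexp, fun x h h' => Nat.find_min' hexp ⟨x, h, h', rfl⟩⟩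
  obtain ⟨o1, -, o3⟩ := h3 V n S G i true (2 * M₁ + 1) R hC.st hR (by omega) M₁ (by omega)
  rw [← hc] at o1 o3
  have hci : S.c c ≠ i := by
    intro h
    have e1 := hR.tc M₁ (by omega)
    rw [← hc, h, hC.st] at e1
    exact Bool.false_ne_true e1
  -- the class `i` and `c`
  have hpc : ∀ x, S.c x = i → (S.G.Adj x c ↔ p ≤ S.ρ x) := by
    intro x hx
    constructor
    · exact hpmin x hx
    · intro hp
      rcases Nat.lt_or_ge (S.ρ x₀) (S.ρ x) with hlt | hge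
      · exact S.up x₀ x c (hx₀.trans hx.symm) hlt (by rw [hx₀]; exact hci)
          (by rw [hx₀, o1]; rfl) hx₀c
      · have : x₀ = x := S.inj x₀ x (hx₀.trans hx.symm) (by omega)
        rw [← this]
        exact hx₀c
  have hp1 : S.ρ (R 0 (M₁ + 1)) < p := by
    have := (o3 x₀ hx₀).1 hx₀c (by omega)
    unfold X2.St.lt at this
    rw [if_pos rfl, hx₀p] at this
    exact this
  have hmono : ∀ k l, k ≤ l → l < 2 * M₁ + 1 → S.ρ (R 0 l) ≤ S.ρ (R 0 k) := by
    intro k l hkl hl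
    rcases Nat.lt_or_ge k l with h | h
    · exact (hR.dec k l h hl).le
    · have : k = l := by omega
      rw [this]
  refine ⟨p, q, ?_, ?_, ?_, ?_, ?_⟩
  · have := hmono (M₁ + 1) (2 * M₁) (by omega) (by omega)
    exact lt_of_le_of_lt this hp1
  · exact (hpmin _ (hR.cu M₁ (by omega)) hadj0).trans (hmono 0 M₁ (by omega) (by omega))
  · exact hqR q hq
  · exact (hqmin q₀ hq₀).trans hq₀'
  -- rainbows
  intro τ T hT
  constructor
  · intro hall
    have hT1 : Rain S G i τ N₁ T :=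
      hT.sub (κ := fun k => k) (fun k hk => by omega) (fun k l hkl _ => hkl)
    obtain ⟨κ, hκ, a', ha', hpos⟩ := hN₁ V n S G i hC hK' z q hAn hq hqmin τ T hT1
      (fun k hk => (hall k (by omega)).2)
    have hT2 : Rain S G i τ m (fun j k => T j (κ k)) :=
      hT.sub (fun k hk => by have := hκ.lt k hk; omega) hκ.mono
    have hT3 : Rain S G i τ A (fun j k => T j (κ k)) :=
      hT2.sub (κ := fun k => k) (fun k hk => by omega) (fun k l hkl _ => hkl)
    obtain ⟨κ', hκ', ⟨a, ha⟩, hNx⟩ := hA' τ _ c hT3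
    have hT4 := hT3.sub hκ'.lt hκ'.mono
    have ha2 := ha'.sub (m' := 16) (κ := κ') (fun k hk => by have := hκ'.lt k hk; omega)
    have hlt : κ (κ' 0) < N := by
      have e1 := hκ'.lt 0 (by norm_num)
      have e2 := hκ.lt (κ' 0) (by omega)
      omega
    have hleg := hall _ hlt
    have hz0 : a' 0 = false := by
      rw [← Bool.not_eq_true, ← ha2.rel 0 (by norm_num) 0 (by norm_num)]
      exact hAn _ (hT.cu _ hlt)
    have hz4 : a' 4 = false := by
      rw [← Bool.not_eq_true, ← ha2.rel 4 (by norm_num) 0 (by norm_num)]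
      exact hAn _ (hT.ct _ hlt)
    have hleg0 : p ≤ S.ρ (T 0 (κ (κ' 0))) ∧ p ≤ S.ρ (T 4 (κ (κ' 0))) := by
      unfold LL RL at hleg
      cases τ
      · simp only [cond_false] at hleg
        omega
      · simp only [cond_true] at hleg
        omega
    have hc0 : a 0 = true :=
      (goodP_tab ha hNx (by norm_num) (by norm_num) (hpc _ (hT.cu _ hlt))).2 hleg0.1
    have hc4 : a 4 = true :=
      (goodP_tab ha hNx (by norm_num) (by norm_num) (hpc _ (hT.ct _ hlt))).2 hleg0.2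
    have h9 := (h2 V G hC.hH hC.hJ _ c z a a' hT4.toDR ha ha2 hcz hcz' hz0 hz4).1
      (by rw [hc0, hc4])
    exact h9 (goodP_pos τ _ _ hpos)
  · intro hall
    have hT1 : Rain S G i τ N₂ T :=
      hT.sub (κ := fun k => k) (fun k hk => by omega) (fun k l hkl _ => hkl)
    obtain ⟨κ, hκ, ⟨a', ha'⟩, -⟩ := hN₂' τ T z hT1
    have hT2 : Rain S G i τ m (fun j k => T j (κ k)) :=
      hT.sub (fun k hk => by have := hκ.lt k hk; omega) hκ.mono
    have hT3 : Rain S G i τ A (fun j k => T j (κ k)) :=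
      hT2.sub (κ := fun k => k) (fun k hk => by omega) (fun k l hkl _ => hkl)
    obtain ⟨κ', hκ', ⟨a, ha⟩, hNx⟩ := hA' τ _ c hT3
    have hT4 := hT3.sub hκ'.lt hκ'.mono
    have ha2 := ha'.sub (m' := 16) (κ := κ') (fun k hk => by have := hκ'.lt k hk; omega)
    have hlt : κ (κ' 0) < N := by
      have e1 := hκ'.lt 0 (by norm_num)
      have e2 := hκ.lt (κ' 0) (by omega)
      omega
    have hleg := hall _ hlt
    have hz0 : a' 0 = false := by
      rw [← Bool.not_eq_true, ← ha2.rel 0 (by norm_num) 0 (by norm_num)]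
      exact hAn _ (hT.cu _ hlt)
    have hz4 : a' 4 = false := by
      rw [← Bool.not_eq_true, ← ha2.rel 4 (by norm_num) 0 (by norm_num)]
      exact hAn _ (hT.ct _ hlt)
    have h9 := h2 V G hC.hH hC.hJ _ c z a a' hT4.toDR ha ha2 hcz hcz' hz0 hz4
    have h10 := h1 V G hC.hH hC.hJ _ z a' hT4.toDR ha2 hz0 hz4
    have t0 := goodP_tab ha hNx (j := 0) (by norm_num) (by norm_num) (hpc _ (hT.cu _ hlt))
    have t4 := goodP_tab ha hNx (j := 4) (by norm_num) (by norm_num) (hpc _ (hT.ct _ hlt))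
    cases τ
    · have e1 : S.ρ (T 4 (κ (κ' 0))) < p ∧ p ≤ S.ρ (T 0 (κ (κ' 0))) := ⟨hleg.1, hleg.2.1⟩
      refine h9.2.2 ?_
      have e2 : a 4 = false := by
        rw [← Bool.not_eq_true, t4]
        exact not_le.2 e1.1
      rw [t0.2 e1.2, e2]
    · have e1 : S.ρ (T 0 (κ (κ' 0))) < p ∧ p ≤ S.ρ (T 4 (κ (κ' 0))) := ⟨hleg.1, hleg.2.1⟩
      have e2 : a 0 = false := by
        rw [← Bool.not_eq_true, t0]
        exact not_le.2 e1.1
      have h11 := h9.2.1 (by rw [t4.2 e1.2, e2])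
      have hT5 : Rain S G i true (2 * K + 1) (fun j k => T j (κ k)) :=
        hT2.sub (κ := fun k => k) (fun k hk => by omega) (fun k l hkl _ => hkl)
      have ha5 : HZ G (2 * K + 1) (fun j k => T j (κ k)) z a' :=
        ha'.sub (κ := fun k => k) (fun k hk => by omega)
      have hlt5 : κ K < N := by
        have e2 := hκ.lt K (by omega)
        omega
      have hleg5 := hall _ hlt5
      have hpos : posZ true a' = Pos.L ∨ posZ true a' = Pos.I := goodP_pos' _ _ h11 h10.2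
      rcases hpos with hp | hp
      · have h12 := hqmin _ ⟨true, _, hT5, Or.inl ⟨⟨a', ha5, hp⟩, rfl⟩⟩
        have h13 : q ≤ S.ρ (LL true T (κ K)) := h12
        omega
      · have h12 := hqmin _ ⟨true, _, hT5, Or.inr ⟨⟨a', ha5, hp⟩, rfl⟩⟩
        have h13 : q ≤ S.ρ (RL true T (κ K)) := h12
        omega

end Pool.Agent.MPd439b2.CE
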