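import Pool.Agent.Lib.MP_d439b2_co.CE.Spec

/-!
# MP_d439b2_co, CE, Or: order form of a homogeneous pair of rainbows (helper74)
-/

set_option autoImplicit false

namespace Pool.Agent.MPd439b2.CE

open Pool.Agent.MPd439b2

/-- the order `σ` on numbers -/
private def Lr (σ : Bool) (a b : ℕ) : Prop := if σ = true then a < b else b < a

private theorem or_dj {p : Bool} {P Q : Prop} (h : (p = true → P) ∧ (p = false → Q)) :
    (p = true ∧ P) ∨ (p = false ∧ Q) := by
  cases p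
  · exact Or.inr ⟨rfl, h.2 rfl⟩
  · exact Or.inl ⟨rfl, h.1 rfl⟩

private theorem or_eq {p q : Bool} {a b : ℕ} (h : (p = true → a < b) ∧ (p = false → b < a))
    (h' : (q = true → a < b) ∧ (q = false → b < a)) : q = p := by
  rcases or_dj h with ⟨e, g⟩ | ⟨e, g⟩ <;> rcases or_dj h' with ⟨e', g'⟩ | ⟨e', g'⟩
  · rw [e, e']
  · omega
  · omega
  · rw [e, e']

private theorem or_ne {p q : Bool} {a b : ℕ} (h : (p = true → a < b) ∧ (p = false → b < a))
    (h' : (q = true → b < a) ∧ (q = false → a < b)) : q = !p := by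
  rcases or_dj h with ⟨e, g⟩ | ⟨e, g⟩ <;> rcases or_dj h' with ⟨e', g'⟩ | ⟨e', g'⟩
  · omega
  · rw [e, e', Bool.not_true]
  · rw [e, e', Bool.not_false]
  · omega

private theorem or_key (σ τ : Bool) (K : ℕ → ℕ → Bool) (u1 t1 u2 t2 : ℕ)
    (h10 : (K 1 0 = true → Lr σ u1 u2) ∧ (K 1 0 = false → Lr σ u2 u1))
    (h30 : (K 3 0 = true → Lr σ t1 u2) ∧ (K 3 0 = false → Lr σ u2 t1))
    (h14 : (K 1 4 = true → Lr σ u1 t2) ∧ (K 1 4 = false → Lr σ t2 u1))
    (h34 : (K 3 4 = true → Lr σ t1 t2) ∧ (K 3 4 = false → Lr σ t2 t1))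
    (h01 : (K 0 1 = true → Lr τ u2 u1) ∧ (K 0 1 = false → Lr τ u1 u2))
    (h03 : (K 0 3 = true → Lr τ t2 u1) ∧ (K 0 3 = false → Lr τ u1 t2))
    (h41 : (K 4 1 = true → Lr τ u2 t1) ∧ (K 4 1 = false → Lr τ t1 u2))
    (h43 : (K 4 3 = true → Lr τ t2 t1) ∧ (K 4 3 = false → Lr τ t1 t2))
    (b1 : (bif σ then u1 else t1) < (bif σ then t1 else u1))
    (b2 : (bif τ then u2 else t2) < (bif τ then t2 else u2))
    (n1 : pat K ≠ (cA, cI, cI, cB)) (n2 : pat K ≠ (cI, cB, cA, cI)) (n3 : pat K ≠ (cB, cA, cI, cI))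
    (n4 : pat K ≠ (cI, cI, cB, cA)) (n5 : pat K ≠ (cB, cI, cB, cI)) (n6 : pat K ≠ (cI, cA, cI, cA)) :
    ((bif σ then u1 else t1) < (bif τ then u2 else t2) ∧
      (bif τ then t2 else u2) < (bif σ then t1 else u1) ∧ σ = τ ∧ pat K = (cI, cI, cA, cB)) ∨
    ((bif τ then u2 else t2) < (bif σ then u1 else t1) ∧
      (bif σ then t1 else u1) < (bif τ then t2 else u2) ∧ σ = τ ∧ pat K = (cA, cB, cI, cI)) ∨
    ((bif σ then t1 else u1) < (bif τ then u2 else t2) ∧
      pat K = (bif σ then cB else cA, bif σ then cB else cA, bif τ then cA else cB, bif τ then cA else cB)) ∨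
    ((bif τ then t2 else u2) < (bif σ then u1 else t1) ∧
      pat K = (bif σ then cA else cB, bif σ then cA else cB, bif τ then cB else cA, bif τ then cB else cA)) := by
  unfold Lr at h10 h30 h14 h34 h01 h03 h41 h43
  cases σ <;> cases τ <;>
    simp only [if_true, if_false, Bool.false_eq_true, cond_true, cond_false] at h10 h30 h14 h34 h01 h03 h41 h43 b1 b2 ⊢
  · have hp : pat K = ((K 1 0, K 3 0), (K 1 4, K 3 4), (!K 1 0, !K 1 4), (!K 3 0, !K 3 4)) := by
      unfold pat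
      rw [or_ne h10 h01, or_ne h14 h03, or_ne h30 h41, or_ne h34 h43]
    rw [hp] at n1 n2 n3 n4 n5 n6 ⊢
    have g1 := or_dj h10
    have g2 := or_dj h30
    have g3 := or_dj h14
    have g4 := or_dj h34
    clear h10 h30 h14 h34 h01 h03 h41 h43 hp
    generalize K 1 0 = A at *
    generalize K 3 0 = B at *
    generalize K 1 4 = C at *
    generalize K 3 4 = D at *
    rcases g1 with ⟨rfl, g1⟩ | ⟨rfl, g1⟩ <;> rcases g2 with ⟨rfl, g2⟩ | ⟨rfl, g2⟩ <;>
      rcases g3 with ⟨rfl, g3⟩ | ⟨rfl, g3⟩ <;> rcases g4 with ⟨rfl, g4⟩ | ⟨rfl, g4⟩ <;>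
      first
        | (exfalso; omega)
        | exact (n1 rfl).elim
        | exact (n2 rfl).elim
        | exact (n3 rfl).elim
        | exact (n4 rfl).elim
        | exact (n5 rfl).elim
        | exact (n6 rfl).elim
        | exact Or.inl ⟨by omega, by omega, by trivial, rfl⟩
        | exact Or.inr (Or.inl ⟨by omega, by omega, by trivial, rfl⟩)
        | exact Or.inr (Or.inr (Or.inl ⟨by omega, rfl⟩))
        | exact Or.inr (Or.inr (Or.inr ⟨by omega, rfl⟩))
  · have hp : pat K = ((K 1 0, K 3 0), (K 1 4, K 3 4), (K 1 0, K 1 4), (K 3 0, K 3 4)) := by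
      unfold pat
      rw [or_eq h10 h01, or_eq h14 h03, or_eq h30 h41, or_eq h34 h43]
    rw [hp] at n1 n2 n3 n4 n5 n6 ⊢
    have g1 := or_dj h10
    have g2 := or_dj h30
    have g3 := or_dj h14
    have g4 := or_dj h34
    clear h10 h30 h14 h34 h01 h03 h41 h43 hp
    generalize K 1 0 = A at *
    generalize K 3 0 = B at *
    generalize K 1 4 = C at *
    generalize K 3 4 = D at *
    rcases g1 with ⟨rfl, g1⟩ | ⟨rfl, g1⟩ <;> rcases g2 with ⟨rfl, g2⟩ | ⟨rfl, g2⟩ <;>
      rcases g3 with ⟨rfl, g3⟩ | ⟨rfl, g3⟩ <;> rcases g4 with ⟨rfl, g4⟩ | ⟨rfl, g4⟩ <;>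
      first
        | (exfalso; omega)
        | exact (n1 rfl).elim
        | exact (n2 rfl).elim
        | exact (n3 rfl).elim
        | exact (n4 rfl).elim
        | exact (n5 rfl).elim
        | exact (n6 rfl).elim
        | exact Or.inl ⟨by omega, by omega, by trivial, rfl⟩
        | exact Or.inr (Or.inl ⟨by omega, by omega, by trivial, rfl⟩)
        | exact Or.inr (Or.inr (Or.inl ⟨by omega, rfl⟩))
        | exact Or.inr (Or.inr (Or.inr ⟨by omega, rfl⟩))
  · have hp : pat K = ((K 1 0, K 3 0), (K 1 4, K 3 4), (K 1 0, K 1 4), (K 3 0, K 3 4)) := by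
      unfold pat
      rw [or_eq h10 h01, or_eq h14 h03, or_eq h30 h41, or_eq h34 h43]
    rw [hp] at n1 n2 n3 n4 n5 n6 ⊢
    have g1 := or_dj h10
    have g2 := or_dj h30
    have g3 := or_dj h14
    have g4 := or_dj h34
    clear h10 h30 h14 h34 h01 h03 h41 h43 hp
    generalize K 1 0 = A at *
    generalize K 3 0 = B at *
    generalize K 1 4 = C at *
    generalize K 3 4 = D at *
    rcases g1 with ⟨rfl, g1⟩ | ⟨rfl, g1⟩ <;> rcases g2 with ⟨rfl, g2⟩ | ⟨rfl, g2⟩ <;>
      rcases g3 with ⟨rfl, g3⟩ | ⟨rfl, g3⟩ <;> rcases g4 with ⟨rfl, g4⟩ | ⟨rfl, g4⟩ <;>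
      first
        | (exfalso; omega)
        | exact (n1 rfl).elim
        | exact (n2 rfl).elim
        | exact (n3 rfl).elim
        | exact (n4 rfl).elim
        | exact (n5 rfl).elim
        | exact (n6 rfl).elim
        | exact Or.inl ⟨by omega, by omega, by trivial, rfl⟩
        | exact Or.inr (Or.inl ⟨by omega, by omega, by trivial, rfl⟩)
        | exact Or.inr (Or.inr (Or.inl ⟨by omega, rfl⟩))
        | exact Or.inr (Or.inr (Or.inr ⟨by omega, rfl⟩))
  · have hp : pat K = ((K 1 0, K 3 0), (K 1 4, K 3 4), (!K 1 0, !K 1 4), (!K 3 0, !K 3 4)) := by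
      unfold pat
      rw [or_ne h10 h01, or_ne h14 h03, or_ne h30 h41, or_ne h34 h43]
    rw [hp] at n1 n2 n3 n4 n5 n6 ⊢
    have g1 := or_dj h10
    have g2 := or_dj h30
    have g3 := or_dj h14
    have g4 := or_dj h34
    clear h10 h30 h14 h34 h01 h03 h41 h43 hp
    generalize K 1 0 = A at *
    generalize K 3 0 = B at *
    generalize K 1 4 = C at *
    generalize K 3 4 = D at *
    rcases g1 with ⟨rfl, g1⟩ | ⟨rfl, g1⟩ <;> rcases g2 with ⟨rfl, g2⟩ | ⟨rfl, g2⟩ <;>
      rcases g3 with ⟨rfl, g3⟩ | ⟨rfl, g3⟩ <;> rcases g4 with ⟨rfl, g4⟩ | ⟨rfl, g4⟩ <;>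
      first
        | (exfalso; omega)
        | exact (n1 rfl).elim
        | exact (n2 rfl).elim
        | exact (n3 rfl).elim
        | exact (n4 rfl).elim
        | exact (n5 rfl).elim
        | exact (n6 rfl).elim
        | exact Or.inl ⟨by omega, by omega, by trivial, rfl⟩
        | exact Or.inr (Or.inl ⟨by omega, by omega, by trivial, rfl⟩)
        | exact Or.inr (Or.inr (Or.inl ⟨by omega, rfl⟩))
        | exact Or.inr (Or.inr (Or.inr ⟨by omega, rfl⟩))

/-- the codes of a vertex of the class `i` give its position -/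
private theorem or_pos (hO : S_Ord) {V : Type} {n : ℕ} {S : X2.St V n} {G : SimpleGraph V}
    {i : Fin n} {σ : Bool} {m : ℕ} {R : ℕ → ℕ → V} (hi : S.t i = false) (hR : Rain S G i σ m R)
    (hm : 2 ≤ m) {x : V} (hx : S.c x = i) {p q : Bool}
    (hp : ∀ k < m, (S.G.Adj x (R 1 k) ↔ p = true)) (hq : ∀ k < m, (S.G.Adj x (R 3 k) ↔ q = true))
    {k : ℕ} (hk : 1 ≤ k) (hk' : k + 1 < m) :
    ((p = true → Lr σ (S.ρ (R 0 k)) (S.ρ x)) ∧ (p = false → Lr σ (S.ρ x) (S.ρ (R 0 k)))) ∧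
    ((q = true → Lr σ (S.ρ (R 4 k)) (S.ρ x)) ∧ (q = false → Lr σ (S.ρ x) (S.ρ (R 4 k)))) := by
  have o0 := (hO V n S G i σ m R hi hR hm k (by omega)).2.2 x hx
  have o1 := (hO V n S G i σ m R hi hR hm (k - 1) (by omega)).2.2 x hx
  have o2 := (hO V n S G i σ m R hi hR hm (k + 1) (by omega)).2.2 x hx
  refine ⟨⟨fun h => ?_, fun h => ?_⟩, fun h => ?_, fun h => ?_⟩
  · have h1 := o1.1 ((hp (k - 1) (by omega)).2 h) (by omega)
    rw [show k - 1 + 1 = k by omega] at h1
    exact h1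
  · exact o0.2.1 (fun h1 => by rw [(hp k (by omega)).1 h1] at h; exact absurd h (by decide))
  · have h1 := o2.2.2.1 ((hq (k + 1) (by omega)).2 h) (by omega)
    rw [show k + 1 - 1 = k by omega] at h1
    exact h1
  · exact o0.2.2.2 (fun h1 => by rw [(hq k (by omega)).1 h1] at h; exact absurd h (by decide))

theorem orF (h1 : S_Pt) (h2 : S_Ord) : S_Or := by
  intro V n S G i b hC σ τ m T Q K hm hT hQ hK hN k l hk hk' hl hl'
  have hst : S.t i = false := hC.st
  -- the staircase graph and `G` agree between the rainbows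
  have agr : ∀ j < 5, ∀ k < m, ∀ j' < 5, ∀ l < m,
      (S.G.Adj (T j k) (Q j' l) ↔ K j j' = true) := by
    intro j hj k hk j' hj' l hl
    rw [← hK.rel j hj j' hj' k hk l hl]
    by_contra hne
    exact hN j hj k hk j' hj' l hl hne
  -- the legs are not adjacent
  have leg : ∀ j < 5, ∀ j' < 5, S.c (T j 0) = i → S.c (Q j' 0) = i → K j j' = false := by
    intro j hj j' hj' e1 e2
    by_contra h
    rw [Bool.not_eq_false] at h
    have h3 := (agr j hj 0 (by omega) j' hj' 0 (by omega)).2 h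
    rw [S.typ _ _ (hK.dis j hj j' hj' 0 (by omega) 0 (by omega)) (e1.trans e2.symm), e1, hst] at h3
    exact absurd h3 (by decide)
  have k00 := leg 0 (by omega) 0 (by omega) (hT.cu 0 (by omega)) (hQ.cu 0 (by omega))
  have k04 := leg 0 (by omega) 4 (by omega) (hT.cu 0 (by omega)) (hQ.ct 0 (by omega))
  have k40 := leg 4 (by omega) 0 (by omega) (hT.ct 0 (by omega)) (hQ.cu 0 (by omega))
  have k44 := leg 4 (by omega) 4 (by omega) (hT.ct 0 (by omega)) (hQ.ct 0 (by omega))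
  have hT16 : DR G 16 T := hT.toDR.sub (κ := fun k => k) (fun k hk => by omega) (fun k l h _ => h)
  have hQ16 : DR G 16 Q := hQ.toDR.sub (κ := fun k => k) (fun k hk => by omega) (fun k l h _ => h)
  have hK16 : HP G 16 T Q K := hK.sub (κ := fun k => k) (κ' := fun k => k)
    (fun k hk => by omega) (fun k hk => by omega)
  obtain ⟨-, -, -, -, n1, n2, n3, n4, n5, n6⟩ :=
    h1 V G hC.hH hC.hJ T Q K hT16 hQ16 hK16 k00 k04 k40 k44
  -- the legs of `Q` seen by `T`
  have q0 := or_pos h2 hst hT (by omega) (hQ.cu l (by omega)) (p := K 1 0) (q := K 3 0)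
    (fun k hk => by rw [SimpleGraph.adj_comm]; exact agr 1 (by omega) k hk 0 (by omega) l (by omega))
    (fun k hk => by rw [SimpleGraph.adj_comm]; exact agr 3 (by omega) k hk 0 (by omega) l (by omega))
    hk hk'
  have q4 := or_pos h2 hst hT (by omega) (hQ.ct l (by omega)) (p := K 1 4) (q := K 3 4)
    (fun k hk => by rw [SimpleGraph.adj_comm]; exact agr 1 (by omega) k hk 4 (by omega) l (by omega))
    (fun k hk => by rw [SimpleGraph.adj_comm]; exact agr 3 (by omega) k hk 4 (by omega) l (by omega))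
    hk hk'
  -- the legs of `T` seen by `Q`
  have t0 := or_pos h2 hst hQ (by omega) (hT.cu k (by omega)) (p := K 0 1) (q := K 0 3)
    (fun l hl => agr 0 (by omega) k (by omega) 1 (by omega) l hl)
    (fun l hl => agr 0 (by omega) k (by omega) 3 (by omega) l hl) hl hl'
  have t4 := or_pos h2 hst hQ (by omega) (hT.ct k (by omega)) (p := K 4 1) (q := K 4 3)
    (fun l hl => agr 4 (by omega) k (by omega) 1 (by omega) l hl)
    (fun l hl => agr 4 (by omega) k (by omega) 3 (by omega) l hl) hl hl'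
  have b1 := hT.bet k (by omega) k (by omega)
  have b2 := hQ.bet l (by omega) l (by omega)
  have eL : ∀ (σ : Bool) (R : ℕ → ℕ → V) (k : ℕ),
      S.ρ (LL σ R k) = bif σ then S.ρ (R 0 k) else S.ρ (R 4 k) := by
    intro σ R k
    cases σ <;> rfl
  have eR : ∀ (σ : Bool) (R : ℕ → ℕ → V) (k : ℕ),
      S.ρ (RL σ R k) = bif σ then S.ρ (R 4 k) else S.ρ (R 0 k) := by
    intro σ R k
    cases σ <;> rfl
  rw [eL, eR] at b1 b2
  rw [eL, eR, eL, eR]
  exact or_key σ τ K _ _ _ _ q0.1 q0.2 q4.1 q4.2 t0.1 t0.2 t4.1 t4.2 b1 b2 n1 n2 n3 n4 n5 n6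

end Pool.Agent.MPd439b2.CE
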