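import Pool.Agent.Lib.MP_d439b2_co.CE.Spec

/-!
# MP_d439b2_co, CE: the order of the class `i` and the adjacency with the rails `1` and `3`
-/

set_option autoImplicit false

namespace Pool.Agent.MPd439b2.CE

open Pool.Agent.MPd439b2

private theorem ord_a01 {V : Type} {n : ℕ} {S : X2.St V n} {G : SimpleGraph V} {i : Fin n} {σ : Bool}
    {m : ℕ} {R : ℕ → ℕ → V} (hR : Rain S G i σ m R) {a b : ℕ} (ha : a < m) (hb : b < m) :
    S.G.Adj (R 0 a) (R 1 b) ↔ a ≤ b := by
  have hex : ¬ BT.Exc S G (R 0 a) (R 1 b) := fun he => by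
    obtain ⟨-, h⟩ := hR.exc 0 (by omega) 1 (by omega) a ha b hb he
    omega
  have h1 : S.G.Adj (R 0 a) (R 1 b) ↔ G.Adj (R 0 a) (R 1 b) := not_not.1 hex
  rw [h1]
  rcases lt_trichotomy a b with h | h | h
  · exact ⟨fun _ => h.le, fun _ => (hR.rel 0 (by omega) 1 (by omega) a b h hb).2 rfl⟩
  · subst h
    exact ⟨fun _ => le_rfl, fun _ => (hR.dg 0 (by omega) 1 (by omega) (by omega) a ha).2 rfl⟩
  · constructor
    · intro h2
      have h3 := (hR.rel 1 (by omega) 0 (by omega) b a h ha).1 h2.symm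
      exact absurd h3 (by decide)
    · intro h2
      omega

private theorem ord_a43 {V : Type} {n : ℕ} {S : X2.St V n} {G : SimpleGraph V} {i : Fin n} {σ : Bool}
    {m : ℕ} {R : ℕ → ℕ → V} (hR : Rain S G i σ m R) {a b : ℕ} (ha : a < m) (hb : b < m) :
    S.G.Adj (R 4 a) (R 3 b) ↔ b ≤ a := by
  have hex : ¬ BT.Exc S G (R 4 a) (R 3 b) := fun he => by
    obtain ⟨-, h⟩ := hR.exc 4 (by omega) 3 (by omega) a ha b hb he
    omega
  have h1 : S.G.Adj (R 4 a) (R 3 b) ↔ G.Adj (R 4 a) (R 3 b) := not_not.1 hex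
  rw [h1]
  rcases lt_trichotomy b a with h | h | h
  · exact ⟨fun _ => h.le, fun _ => ((hR.rel 3 (by omega) 4 (by omega) b a h ha).2 rfl).symm⟩
  · subst h
    exact ⟨fun _ => le_rfl, fun _ => ((hR.dg 3 (by omega) 4 (by omega) (by omega) b ha).2 rfl).symm⟩
  · constructor
    · intro h2
      have h3 := (hR.rel 4 (by omega) 3 (by omega) a b h hb).1 h2
      exact absurd h3 (by decide)
    · intro h2
      omega

private theorem ord_dir {V : Type} {n : ℕ} {S : X2.St V n} {σ s : Bool} {x y : V} (h : S.lt s x y)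
    (h1 : σ = true → S.ρ y < S.ρ x) (h2 : σ = false → S.ρ x < S.ρ y) : s = !σ := by
  unfold X2.St.lt at h
  cases σ <;> cases s
  · rw [if_neg (by decide)] at h
    have := h2 rfl
    omega
  · rfl
  · rfl
  · rw [if_pos rfl] at h
    have := h1 rfl
    omega

theorem ord : S_Ord := by
  intro V n S G i σ m R hti hR hm k hk
  have hne1 : ∀ b < m, S.c (R 1 b) ≠ i := fun b hb h => by
    have h1 := hR.tc b hb
    rw [h, hti] at h1
    exact absurd h1 (by decide)
  have hne3 : ∀ b < m, S.c (R 3 b) ≠ i := fun b hb h => by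
    have h1 := hR.tw b hb
    rw [h, hti] at h1
    exact absurd h1 (by decide)
  have d1 : S.s i (S.c (R 1 k)) = !σ := by
    have h0 := BT.lt_of_adj (S := S) (x := R 0 0) (x' := R 0 1) (y := R 1 0)
      (hR.cls 0 (by omega) 0 (by omega) 1 (by omega))
      (by rw [hR.cu 0 (by omega)]; exact hne1 0 (by omega))
      ((ord_a01 hR (by omega) (by omega)).2 (by omega))
      (fun h => by
        have := (ord_a01 hR (by omega) (by omega)).1 h
        omega)
    rw [hR.cu 0 (by omega), hR.cls 1 (by omega) 0 (by omega) k hk] at h0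
    refine ord_dir h0 ?_ ?_
    · intro hσ
      have h1 := hR.dec 0 1 (by omega) (by omega)
      rw [hσ] at h1
      exact h1
    · intro hσ
      have h1 := hR.inc 0 1 (by omega) (by omega)
      rw [hσ] at h1
      exact h1
  have d3 : S.s i (S.c (R 3 k)) = !σ := by
    have h0 := BT.lt_of_adj (S := S) (x := R 4 1) (x' := R 4 0) (y := R 3 1)
      (hR.cls 4 (by omega) 1 (by omega) 0 (by omega))
      (by rw [hR.ct 1 (by omega)]; exact hne3 1 (by omega))
      ((ord_a43 hR (by omega) (by omega)).2 (by omega))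
      (fun h => by
        have := (ord_a43 hR (by omega) (by omega)).1 h
        omega)
    rw [hR.ct 1 (by omega), hR.cls 3 (by omega) 1 (by omega) k hk] at h0
    refine ord_dir h0 ?_ ?_
    · intro hσ
      have h1 := hR.inc 0 1 (by omega) (by omega)
      rw [hσ] at h1
      exact h1
    · intro hσ
      have h1 := hR.dec 0 1 (by omega) (by omega)
      rw [hσ] at h1
      exact h1
  refine ⟨d1, d3, fun x hx => ⟨?_, ?_, ?_, ?_⟩⟩
  · intro ha hk1
    rw [S.lt_iff]
    intro hle
    have h1 : S.G.Adj (R 0 (k + 1)) (R 1 k) := by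
      refine S.see (x' := x) (by rw [hR.cu _ hk1, hx]) (by rw [hR.cu _ hk1]; exact hne1 k hk) ?_ ha
      rw [hR.cu _ hk1, d1, S.le_not]
      exact hle
    have := (ord_a01 hR hk1 hk).1 h1
    omega
  · intro ha
    rw [S.lt_iff]
    intro hle
    refine ha (S.see (x' := R 0 k) (by rw [hR.cu _ hk, hx]) (by rw [hx]; exact hne1 k hk) ?_
      ((ord_a01 hR hk hk).2 le_rfl))
    rw [hx, d1, S.le_not]
    exact hle
  · intro ha hk1
    rw [S.lt_iff]
    intro hle
    have hk2 : k - 1 < m := by omega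
    have h1 : S.G.Adj (R 4 (k - 1)) (R 3 k) := by
      refine S.see (x' := x) (by rw [hR.ct _ hk2, hx]) (by rw [hR.ct _ hk2]; exact hne3 k hk) ?_ ha
      rw [hR.ct _ hk2, d3, S.le_not]
      exact hle
    have := (ord_a43 hR hk2 hk).1 h1
    omega
  · intro ha
    rw [S.lt_iff]
    intro hle
    refine ha (S.see (x' := R 4 k) (by rw [hR.ct _ hk, hx]) (by rw [hx]; exact hne3 k hk) ?_
      ((ord_a43 hR hk hk).2 le_rfl))
    rw [hx, d3, S.le_not]
    exact hle

end Pool.Agent.MPd439b2.CE
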