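import Pool.Agent.Lib.MP_d439b2_co.CE.Spec
import Pool.Agent.Lib.MP_d439b2_co.W.RamC

/-!
# MP_d439b2_co, CE: selection of homogeneous subrainbows (helper85)
-/

set_option autoImplicit false

namespace Pool.Agent.MPd439b2.CE

open Pool.Agent.MPd439b2

namespace SlAux

variable {V : Type} {n : ℕ}

/-- a vertex is not equal to or exceptional with `b + 2` different vertices -/
theorem few [Finite V] {S : X2.St V n} {G : SimpleGraph V} {b : ℕ} (hb : BT.ExcB S G b) {z : V}
    {f : ℕ → V} (hf : ∀ k < b + 2, ∀ l < b + 2, f k = f l → k = l)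
    (h : ∀ k < b + 2, BT.Exc S G z (f k) ∨ z = f k) : False := by
  classical
  have hc : ((Finset.range (b + 2)).image f).card = b + 2 := by
    rw [Finset.card_image_of_injOn, Finset.card_range]
    intro k hk l hl hkl
    exact hf k (Finset.mem_range.1 (Finset.mem_coe.1 hk)) l (Finset.mem_range.1 (Finset.mem_coe.1 hl)) hkl
  have h1 : b + 1 ≤ (((Finset.range (b + 2)).image f).erase z).card := by
    have := Finset.pred_card_le_card_erase (s := (Finset.range (b + 2)).image f) (a := z)
    omega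
  have h2 : ((((Finset.range (b + 2)).image f).erase z : Finset V) : Set V) ⊆ {y | BT.Exc S G z y} := by
    intro y hy
    rw [Finset.mem_coe, Finset.mem_erase, Finset.mem_image] at hy
    obtain ⟨hne, k, hk, rfl⟩ := hy
    rcases h k (Finset.mem_range.1 hk) with h3 | h3
    · exact h3
    · exact absurd h3.symm hne
  have h3 := Set.ncard_le_ncard h2 (Set.toFinite _)
  rw [Set.ncard_coe_finset] at h3
  have h4 := hb.deg z
  omega

/-- the rails of a rainbow are injective -/
theorem inj {S : X2.St V n} {G : SimpleGraph V} {i : Fin n} {σ : Bool} {M : ℕ} {T : ℕ → ℕ → V}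
    (h : Rain S G i σ M T) {j k l : ℕ} (hj : j < 5) (hk : k < M) (hl : l < M) (he : T j k = T j l) :
    k = l := by
  by_contra hne
  exact h.dis j hj j hj k hk l hl (Or.inr hne) he

end SlAux

open SlAux

/-- **Selection.** -/
theorem pSl : S_Sl := by
  classical
  intro b m
  obtain ⟨N₁, hN₁⟩ := W.ramC (Fin 5 → Bool × Bool) (m + b + 2 + 1)
  obtain ⟨N₂, hN₂⟩ := W.ramC (Fin 5 → Fin 5 → Bool × Bool) (2 * (m + b + 2))
  refine ⟨max N₁ N₂, fun V _ n S G i hb => ⟨fun σ T z hT => ?_, fun σ τ T Q hT hQ => ?_⟩⟩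
  · obtain ⟨s, c, hs, hsN, hc⟩ := hN₁ fun _ l j =>
      (decide (G.Adj z (T j l)), decide (BT.Exc S G z (T j l) ∨ z = T j l))
    have hsM : ∀ k < m + b + 2 + 1, s k < max N₁ N₂ := fun k hk => (hsN k hk).trans_le (le_max_left _ _)
    have hcol : ∀ k < m + b + 2, ∀ (j : ℕ) (hj : j < 5), (decide (G.Adj z (T j (s (k + 1)))),
        decide (BT.Exc S G z (T j (s (k + 1))) ∨ z = T j (s (k + 1)))) = c ⟨j, hj⟩ := fun k hk j hj =>
      congrFun (hc 0 (k + 1) (by omega) (by omega)) ⟨j, hj⟩
    have hfl : ∀ (j : ℕ) (hj : j < 5), (c ⟨j, hj⟩).2 = false := by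
      intro j hj
      rw [← Bool.not_eq_true]
      intro hcon
      refine few hb (z := z) (f := fun k => T j (s (k + 1))) (fun k hk l hl he => ?_) fun k hk => ?_
      · have h1 := inj hT hj (hsM (k + 1) (by omega)) (hsM (l + 1) (by omega)) he
        by_contra hne
        rcases lt_or_gt_of_ne hne with h2 | h2
        · have := hs (k + 1) (l + 1) (by omega) (by omega)
          omega
        · have := hs (l + 1) (k + 1) (by omega) (by omega)
          omega
      · have h1 := congrArg Prod.snd (hcol k (by omega) j hj)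
        rw [hcon] at h1
        exact of_decide_eq_true h1
    have hno : ∀ k < m + b + 2, ∀ j < 5, ¬ (BT.Exc S G z (T j (s (k + 1))) ∨ z = T j (s (k + 1))) := by
      intro k hk j hj
      have h1 := congrArg Prod.snd (hcol k hk j hj)
      rw [hfl j hj] at h1
      exact of_decide_eq_false h1
    refine ⟨fun k => s (k + 1), ⟨fun k hk => hsM _ (by omega), fun k l hkl hl => hs _ _ (by omega) (by omega)⟩,
      ⟨fun j => if h : j < 5 then (c ⟨j, h⟩).1 else false, fun j hj k hk he => ?_, fun j hj k hk => ?_⟩,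
      fun j hj k hk he => ?_⟩
    · exact hno k (by omega) j hj (Or.inr he)
    · have h1 := congrArg Prod.fst (hcol k (by omega) j hj)
      show G.Adj z (T j (s (k + 1))) ↔ (if h : j < 5 then (c ⟨j, h⟩).1 else false) = true
      rw [dif_pos hj, ← h1]
      exact (decide_eq_true_iff).symm
    · exact hno k (by omega) j hj (Or.inl he)
  · obtain ⟨s, c, hs, hsN, hc⟩ := hN₂ fun k l j j' =>
      (decide (G.Adj (T j k) (Q j' l)), decide (BT.Exc S G (T j k) (Q j' l) ∨ T j k = Q j' l))
    have hsM : ∀ k < 2 * (m + b + 2), s k < max N₁ N₂ := fun k hk => (hsN k hk).trans_le (le_max_right _ _)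
    have hcol : ∀ k < m + b + 2, ∀ l < m + b + 2, ∀ (j : ℕ) (hj : j < 5) (j' : ℕ) (hj' : j' < 5),
        (decide (G.Adj (T j (s k)) (Q j' (s (m + b + 2 + l)))),
          decide (BT.Exc S G (T j (s k)) (Q j' (s (m + b + 2 + l))) ∨
            T j (s k) = Q j' (s (m + b + 2 + l)))) = c ⟨j, hj⟩ ⟨j', hj'⟩ := fun k hk l hl j hj j' hj' =>
      congrFun (congrFun (hc k (m + b + 2 + l) (by omega) (by omega)) ⟨j, hj⟩) ⟨j', hj'⟩
    have hfl : ∀ (j : ℕ) (hj : j < 5) (j' : ℕ) (hj' : j' < 5), (c ⟨j, hj⟩ ⟨j', hj'⟩).2 = false := by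
      intro j hj j' hj'
      rw [← Bool.not_eq_true]
      intro hcon
      refine few hb (z := T j (s 0)) (f := fun l => Q j' (s (m + b + 2 + l))) (fun k hk l hl he => ?_)
        fun l hl => ?_
      · have h1 := inj hQ hj' (hsM _ (by omega)) (hsM _ (by omega)) he
        by_contra hne
        rcases lt_or_gt_of_ne hne with h2 | h2
        · have := hs (m + b + 2 + k) (m + b + 2 + l) (by omega) (by omega)
          omega
        · have := hs (m + b + 2 + l) (m + b + 2 + k) (by omega) (by omega)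
          omega
      · have h1 := congrArg Prod.snd (hcol 0 (by omega) l (by omega) j hj j' hj')
        rw [hcon] at h1
        exact of_decide_eq_true h1
    have hno : ∀ k < m + b + 2, ∀ l < m + b + 2, ∀ j < 5, ∀ j' < 5,
        ¬ (BT.Exc S G (T j (s k)) (Q j' (s (m + b + 2 + l))) ∨ T j (s k) = Q j' (s (m + b + 2 + l))) := by
      intro k hk l hl j hj j' hj'
      have h1 := congrArg Prod.snd (hcol k hk l hl j hj j' hj')
      rw [hfl j hj j' hj'] at h1
      exact of_decide_eq_false h1
    refine ⟨s, fun l => s (m + b + 2 + l), ⟨fun k hk => hsM _ (by omega), fun k l hkl hl =>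
      hs _ _ hkl (by omega)⟩, ⟨fun k hk => hsM _ (by omega), fun k l hkl hl => hs _ _ (by omega) (by omega)⟩,
      ⟨fun j j' => if h : j < 5 ∧ j' < 5 then (c ⟨j, h.1⟩ ⟨j', h.2⟩).1 else false,
        fun j hj j' hj' k hk l hl he => ?_, fun j hj j' hj' k hk l hl => ?_⟩,
      fun j hj k hk j' hj' l hl he => ?_⟩
    · exact hno k (by omega) l (by omega) j hj j' hj' (Or.inr he)
    · have h1 := congrArg Prod.fst (hcol k (by omega) l (by omega) j hj j' hj')
      show G.Adj (T j (s k)) (Q j' (s (m + b + 2 + l))) ↔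
        (if h : j < 5 ∧ j' < 5 then (c ⟨j, h.1⟩ ⟨j', h.2⟩).1 else false) = true
      rw [dif_pos ⟨hj, hj'⟩, ← h1]
      exact (decide_eq_true_iff).symm
    · exact hno k (by omega) l (by omega) j hj j' hj' (Or.inl he)

end Pool.Agent.MPd439b2.CE
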