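import Pool.Agent.Lib.MP_d439b2_co.CE.Spec

/-!
# MP_d439b2_co, CE, Snd: the sandwich (helper74)
-/

set_option autoImplicit false

namespace Pool.Agent.MPd439b2.CE

open Pool.Agent.MPd439b2

/-- two different vertices of the stable class are not adjacent -/
private theorem snd_leg {V : Type} {n : ℕ} {S : X2.St V n} {G : SimpleGraph V} {i : Fin n} {b : ℕ}
    (hC : Cx S G i b) {x y : V} (hx : S.c x = i) (hy : S.c y = i) (hne : x ≠ y) : ¬ G.Adj x y := by
  intro h
  have h1 : ¬ BT.Exc S G x y := fun he => hC.ex.cls he (hx.trans hy.symm)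
  unfold BT.Exc at h1
  rw [not_not] at h1
  have h2 := h1.2 h
  rw [S.typ x y hne (hx.trans hy.symm), hx, hC.st] at h2
  exact absurd h2 (by decide)

theorem snd (h1 : S_R1) (h2 : S_Sl) : S_Snd := by
  intro b
  obtain ⟨M₁, hM₁⟩ := h2 b 16
  refine ⟨max 16 M₁, ?_⟩
  intro V _ n S G i hC σ M R hM hR x hx hzx
  have hM1 : M₁ ≤ M := (le_max_right _ _).trans hM
  have key : ∀ o, o + M₁ ≤ 2 * M + 1 → ∃ k, o ≤ k ∧ k < o + M₁ ∧ ¬ G.Adj x (R 2 k) := by
    intro o ho
    have hsub : Rain S G i σ M₁ (fun j k => R j (o + k)) :=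
      hR.sub (κ := fun k => o + k) (fun k hk => by omega) (fun k l hkl _ => by omega)
    obtain ⟨κ, hκ, ⟨a, ha⟩, -⟩ := (hM₁ V n S G i hC.ex).1 σ _ x hsub
    have hT := hsub.sub hκ.lt hκ.mono
    have a0 : a 0 = false := by
      by_contra h
      rw [Bool.not_eq_false] at h
      exact snd_leg hC hx (hT.cu 0 (by omega)) (ha.dis 0 (by omega) 0 (by omega))
        ((ha.rel 0 (by omega) 0 (by omega)).2 h)
    have a4 : a 4 = false := by
      by_contra h
      rw [Bool.not_eq_false] at h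
      exact snd_leg hC hx (hT.ct 0 (by omega)) (ha.dis 4 (by omega) 0 (by omega))
        ((ha.rel 4 (by omega) 0 (by omega)).2 h)
    have a2 := (h1 V G hC.hH hC.hJ _ x a hT.toDR ha a0 a4).1
    have hk := hκ.lt 0 (by omega)
    refine ⟨o + κ 0, by omega, by omega, fun h => ?_⟩
    have h3 := (ha.rel 2 (by omega) 0 (by omega)).1 h
    rw [a2] at h3
    exact absurd h3 (by decide)
  obtain ⟨k, -, hk, hxk⟩ := key 0 (by omega)
  obtain ⟨l, hl, hl', hxl⟩ := key (M + 1) (by omega)
  have hkM : k < M := by omega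
  have hMl : M < l := by omega
  have hlm : l < 2 * M + 1 := by omega
  have hst : S.t i = false := hC.st
  -- `S.G` and `G` agree between `x` and the rail `2`
  have agr : ∀ k < 2 * M + 1, (S.G.Adj x (R 2 k) ↔ G.Adj x (R 2 k)) := by
    intro k hk
    by_contra hne
    refine hC.ex.typ x (R 2 k) hne ?_
    rw [hx, hst, hR.ts k hk]
  have hSx : S.G.Adj x (R 2 M) := (agr M (by omega)).2 hzx.symm
  have hSk : ¬ S.G.Adj x (R 2 k) := fun h => hxk ((agr k (by omega)).1 h)
  have hSl : ¬ S.G.Adj x (R 2 l) := fun h => hxl ((agr l (by omega)).1 h)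
  have hzi : S.c (R 2 M) ≠ i := fun h => snd_leg hC h hx hzx.ne hzx
  -- `S.G` and `G` agree between the rails `2` and `3`
  have agr2 : ∀ k < 2 * M + 1, ∀ l < 2 * M + 1, (S.G.Adj (R 2 k) (R 3 l) ↔ G.Adj (R 2 k) (R 3 l)) := by
    intro k hk l hl
    by_contra hne
    have h3 := (hR.exc 2 (by omega) 3 (by omega) k hk l hl hne).2
    omega
  have c1 : S.G.Adj (R 2 M) (R 3 M) := (agr2 M (by omega) M (by omega)).2
    ((hR.dg 2 (by omega) 3 (by omega) (by omega) M (by omega)).2 rfl)
  have c2 : ¬ S.G.Adj (R 2 k) (R 3 M) := fun h => by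
    have h3 := (hR.rel 2 (by omega) 3 (by omega) k M hkM (by omega)).1
      ((agr2 k (by omega) M (by omega)).1 h)
    exact absurd h3 (by decide)
  have c3 : S.G.Adj (R 2 l) (R 3 l) := (agr2 l (by omega) l (by omega)).2
    ((hR.dg 2 (by omega) 3 (by omega) (by omega) l (by omega)).2 rfl)
  have c4 : ¬ S.G.Adj (R 2 M) (R 3 l) := fun h => by
    have h3 := (hR.rel 2 (by omega) 3 (by omega) M l hMl (by omega)).1
      ((agr2 M (by omega) l (by omega)).1 h)
    exact absurd h3 (by decide)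
  have ek : S.c (R 2 k) = S.c (R 2 M) := hR.cls 2 (by omega) k (by omega) M (by omega)
  have el : S.c (R 2 l) = S.c (R 2 M) := hR.cls 2 (by omega) l (by omega) M (by omega)
  have el3 : S.c (R 3 l) = S.c (R 3 M) := hR.cls 3 (by omega) l (by omega) M (by omega)
  have hne : S.c (R 3 M) ≠ S.c (R 2 M) := by
    intro h
    have h3 := hR.tw M (by omega)
    rw [h, hR.ts M (by omega)] at h3
    exact absurd h3 (by decide)
  have l1 := BT.lt_of_adj (S := S) ek.symm hne c1 c2
  have l2 := BT.lt_of_adj (S := S) el (by rw [el3, el]; exact hne) c3 c4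
  rw [el3, el] at l2
  -- the order for the class `i`
  have hxz : S.c x ≠ S.c (R 2 M) := fun h => hzi (h.symm.trans hx)
  rcases Bool.eq_or_eq_not (S.s (S.c (R 2 M)) (S.c x)) (S.s (S.c (R 2 M)) (S.c (R 3 M))) with he | he
  · apply hSl
    refine (S.see (x := R 2 l) (x' := R 2 M) el (by rw [el]; exact hxz) ?_ hSx.symm).symm
    rw [el, he]
    exact S.le_of_lt l2
  · apply hSk
    refine (S.see (x := R 2 k) (x' := R 2 M) ek (by rw [ek]; exact hxz) ?_ hSx.symm).symm
    rw [ek, he, S.le_not]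
    exact S.le_of_lt l1

end Pool.Agent.MPd439b2.CE
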