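import Pool.Agent.Lib.MP_d439b2_co.CE.Spec

/-!
# MP_d439b2_co, CE, module `Two`: two rainbows and a vertex (helper5)
-/

set_option autoImplicit false

namespace Pool.Agent.MPd439b2.CE

open Pool.Agent.MPd439b2

private theorem two_nn : ∀ σ p q p' q' : Bool, (p = false → q = false) → (p' = false → q' = false) →
    ((p, q) = cA → (p', q') = cA) ∧ ((p, q) = cB → (p', q') = cB) →
    NN (pos σ p q) (pos σ p' q') := by
  unfold NN pos cA cB
  decide

private theorem two_ff : ∀ p q p' q' : Bool, (p = false → q = false) → (p' = false → q' = false) →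
    ¬ ((p', q') = cI ∧ (p, q) = cB) ∧ ¬ ((p', q') = cA ∧ (p, q) = cB) ∧
      ¬ ((p', q') = cA ∧ (p, q) = cI) → ND false false (pos false p q) (pos false p' q') := by
  unfold ND pos cA cB cI
  decide

private theorem two_ft : ∀ p q p' q' : Bool, (p = false → q = false) → (p' = false → q' = false) →
    ¬ ((p, q) = cI ∧ (p', q') = cB) ∧ ¬ ((p, q) = cB ∧ (p', q') = cI) ∧
      ¬ ((p, q) = cB ∧ (p', q') = cB) → ND false true (pos false p q) (pos true p' q') := by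
  unfold ND pos cB cI
  decide

private theorem two_tf : ∀ p q p' q' : Bool, (p = false → q = false) → (p' = false → q' = false) →
    ¬ ((p, q) = cI ∧ (p', q') = cA) ∧ ¬ ((p, q) = cA ∧ (p', q') = cI) →
      ND true false (pos true p q) (pos false p' q') := by
  unfold ND pos cA cI
  decide

private theorem two_tt : ∀ p q p' q' : Bool, (p = false → q = false) → (p' = false → q' = false) →
    ¬ ((p, q) = cI ∧ (p', q') = cB) ∧ ¬ ((p, q) = cA ∧ (p', q') = cB) ∧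
      ¬ ((p, q) = cA ∧ (p', q') = cI) → ND true true (pos true p q) (pos true p' q') := by
  unfold ND pos cA cB cI
  decide

private theorem two_swap {K : ℕ → ℕ → Bool} {x y z w : Bool × Bool} (h : pat K = (x, y, z, w)) :
    pat (fun i j => K j i) = (z, w, x, y) := by
  unfold pat at h ⊢
  have h1 := congrArg Prod.fst h
  have h2 := congrArg (fun p => p.2.1) h
  have h3 := congrArg (fun p => p.2.2.1) h
  have h4 := congrArg (fun p => p.2.2.2) h
  exact Prod.ext h3 (Prod.ext h4 (Prod.ext h1 h2))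

private theorem two_nd (h2 : S_Zt) {V : Type} {G : SimpleGraph V}
    (hH : ¬ IMS (KA 3 3 ![{0}, {1}, {0, 2}]) G Set.univ) (hJ : ¬ IMS (F9.JS ![0, 1, 1] 2) G Set.univ)
    {T Q : ℕ → ℕ → V} {K : ℕ → ℕ → Bool} {z : V} {a a' : ℕ → Bool} (hT : DR G 16 T)
    (hQ : DR G 16 Q) (hK : HP G 16 T Q K) (k00 : K 0 0 = false) (k04 : K 0 4 = false)
    (k40 : K 4 0 = false) (k44 : K 4 4 = false) (ha : HZ G 16 T z a) (ha' : HZ G 16 Q z a')
    (a0 : a 0 = false) (a4 : a 4 = false) (a0' : a' 0 = false) (a4' : a' 4 = false)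
    (hc : a 1 = false → a 3 = false) (hc' : a' 1 = false → a' 3 = false) (σ τ : Bool)
    (hp : pat K = (bif σ then cB else cA, bif σ then cB else cA, bif τ then cA else cB,
      bif τ then cA else cB)) : ND σ τ (posZ σ a) (posZ τ a') := by
  have e := h2 V G hH hJ T Q K z a a' hT hQ hK k00 k04 k40 k44 ha ha' a0 a4 a0' a4'
  have e' := h2 V G hH hJ Q T (fun i j => K j i) z a' a hQ hT hK.swap k00 k40 k04 k44 ha' ha
    a0' a4' a0 a4
  cases σ <;> cases τ
  · exact two_ff _ _ _ _ hc hc' (e'.2.1 (two_swap hp))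
  · exact two_ft _ _ _ _ hc hc' (e.2.2.2 hp)
  · exact two_tf _ _ _ _ hc hc' (e.2.2.1 hp)
  · exact two_tt _ _ _ _ hc hc' (e.2.1 hp)

theorem two (h1 : S_R1) (h2 : S_Zt) (h3 : S_Sl) (h4 : S_Or) : S_Two := by
  intro b
  obtain ⟨M, hM⟩ := h3 b 16
  refine ⟨M, ?_⟩
  intro V _ n S G i hCx σ τ T Q z P P' hT hQ hz hsT hsQ
  obtain ⟨a, ha, rfl⟩ := hsT
  obtain ⟨a', ha', rfl⟩ := hsQ
  obtain ⟨κ, κ', hκ, hκ', ⟨K, hK⟩, hNx⟩ := (hM V n S G i hCx.ex).2 σ τ T Q hT hQ
  have hT' := hT.sub hκ.lt hκ.mono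
  have hQ' := hQ.sub hκ'.lt hκ'.mono
  have hb := ha.sub hκ.lt
  have hb' := ha'.sub hκ'.lt
  have h16 : (0 : ℕ) < 16 := by norm_num
  -- the vertex `z` does not see the legs
  have a0 : a 0 = false := by
    rw [Bool.eq_false_iff]
    exact fun hh => hz _ (hT'.cu 0 h16) ((hb.rel 0 (by norm_num) 0 h16).2 hh)
  have a4 : a 4 = false := by
    rw [Bool.eq_false_iff]
    exact fun hh => hz _ (hT'.ct 0 h16) ((hb.rel 4 (by norm_num) 0 h16).2 hh)
  have a0' : a' 0 = false := by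
    rw [Bool.eq_false_iff]
    exact fun hh => hz _ (hQ'.cu 0 h16) ((hb'.rel 0 (by norm_num) 0 h16).2 hh)
  have a4' : a' 4 = false := by
    rw [Bool.eq_false_iff]
    exact fun hh => hz _ (hQ'.ct 0 h16) ((hb'.rel 4 (by norm_num) 0 h16).2 hh)
  -- the legs do not see each other
  have hleg : ∀ x y : V, S.c x = i → S.c y = i → x ≠ y → ¬ G.Adj x y := by
    intro x y hx hy hne hadj
    by_cases he : BT.Exc S G x y
    · have := hCx.ex.typ x y he
      rw [hx, hy] at this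
      exact this rfl
    · have h5 : S.G.Adj x y := (not_not.1 he).2 hadj
      rw [S.typ x y hne (by rw [hx, hy]), hx, hCx.st] at h5
      exact absurd h5 (by simp)
  have k00 : K 0 0 = false := by
    rw [Bool.eq_false_iff]
    exact fun hh => hleg _ _ (hT'.cu 0 h16) (hQ'.cu 0 h16)
      (hK.dis 0 (by norm_num) 0 (by norm_num) 0 h16 0 h16)
      ((hK.rel 0 (by norm_num) 0 (by norm_num) 0 h16 0 h16).2 hh)
  have k04 : K 0 4 = false := by
    rw [Bool.eq_false_iff]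
    exact fun hh => hleg _ _ (hT'.cu 0 h16) (hQ'.ct 0 h16)
      (hK.dis 0 (by norm_num) 4 (by norm_num) 0 h16 0 h16)
      ((hK.rel 0 (by norm_num) 4 (by norm_num) 0 h16 0 h16).2 hh)
  have k40 : K 4 0 = false := by
    rw [Bool.eq_false_iff]
    exact fun hh => hleg _ _ (hT'.ct 0 h16) (hQ'.cu 0 h16)
      (hK.dis 4 (by norm_num) 0 (by norm_num) 0 h16 0 h16)
      ((hK.rel 4 (by norm_num) 0 (by norm_num) 0 h16 0 h16).2 hh)
  have k44 : K 4 4 = false := by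
    rw [Bool.eq_false_iff]
    exact fun hh => hleg _ _ (hT'.ct 0 h16) (hQ'.ct 0 h16)
      (hK.dis 4 (by norm_num) 4 (by norm_num) 0 h16 0 h16)
      ((hK.rel 4 (by norm_num) 4 (by norm_num) 0 h16 0 h16).2 hh)
  have hc := (h1 V G hCx.hH hCx.hJ _ z a hT'.toDR hb a0 a4).2
  have hc' := (h1 V G hCx.hH hCx.hJ _ z a' hQ'.toDR hb' a0' a4').2
  have e := h2 V G hCx.hH hCx.hJ _ _ K z a a' hT'.toDR hQ'.toDR hK k00 k04 k40 k44 hb hb'
    a0 a4 a0' a4'
  have e' := h2 V G hCx.hH hCx.hJ _ _ (fun i j => K j i) z a' a hQ'.toDR hT'.toDR hK.swap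
    k00 k40 k04 k44 hb' hb a0' a4' a0 a4
  refine ⟨κ 1, hκ.lt 1 (by norm_num), κ' 1, hκ'.lt 1 (by norm_num), ?_⟩
  rcases h4 V n S G i b hCx σ τ 16 _ _ K le_rfl hT' hQ' hK hNx 1 1 (by norm_num) (by norm_num)
    (by norm_num) (by norm_num) with ⟨hl, hr, hστ, hp⟩ | ⟨hl, hr, hστ, hp⟩ | ⟨hl, hp⟩ | ⟨hl, hp⟩
  · subst hστ
    exact Or.inl ⟨hl, hr, two_nn σ _ _ _ _ hc hc' (e.1 hp)⟩
  · subst hστ
    exact Or.inr (Or.inl ⟨hl, hr, two_nn σ _ _ _ _ hc' hc (e'.1 (two_swap hp))⟩)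
  · exact Or.inr (Or.inr (Or.inl ⟨hl, two_nd h2 hCx.hH hCx.hJ hT'.toDR hQ'.toDR hK k00 k04 k40 k44
      hb hb' a0 a4 a0' a4' hc hc' σ τ hp⟩))
  · exact Or.inr (Or.inr (Or.inr ⟨hl, two_nd h2 hCx.hH hCx.hJ hQ'.toDR hT'.toDR hK.swap k00 k40 k04
      k44 hb' hb a0' a4' a0 a4 hc' hc τ σ (two_swap hp)⟩))

end Pool.Agent.MPd439b2.CE
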