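import Pool.Agent.Lib.MP_d439b2_co.CE.Defs

/-!
# MP_d439b2_co, CE: from rainbows and single vertices to the rows of the engine FV (helper23)
-/

set_option autoImplicit false

namespace Pool.Agent.MPd439b2.CE

open Pool.Agent.MPd439b2
open Pool.Agent.MPd439b2.FT (Mt)

variable {V : Type}

/-! ### tables of bits -/

/-- the function of bits with the outer bits `o i j` and the diagonal bits `d i j` (`i < j`); the bits which are not
used are chosen such that `FV.Hy.cn` holds for all `i`, `j` -/
def mkF {β : Type} (o d : ℕ → ℕ → β) (b : ℕ) : β :=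
  if b < 256 then o (b / 16) (b % 16)
  else if b / 256 = 1 ∧ b / 16 % 16 < b % 16 then d (b / 16 % 16) (b % 16)
  else o (b % 16 + b / 256) (b / 16 % 16)

theorem mkF_o {β : Type} {o d : ℕ → ℕ → β} {i j : ℕ} (hi : i < 16) (hj : j < 16) :
    mkF o d (16 * i + j) = o i j := by
  unfold mkF
  rw [if_pos (by omega), show (16 * i + j) / 16 = i from by omega, show (16 * i + j) % 16 = j from by omega]

theorem mkF_d {β : Type} {o d : ℕ → ℕ → β} {i j : ℕ} (hij : i < j) (hj : j < 16) :
    mkF o d (256 + 16 * i + j) = d i j := by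
  unfold mkF
  rw [if_neg (by omega), if_pos (by omega), show (256 + 16 * i + j) / 16 % 16 = i from by omega,
    show (256 + 16 * i + j) % 16 = j from by omega]

/-- constant pairs -/
theorem hy_of {o d : ℕ → ℕ → Bool} {A : ℕ} (hA' : Nat.blt A (2 ^ 256) = true)
    (hA : ∀ i < 16, ∀ j < 16, A.testBit (16 * i + j) = true → i < j ∧ o j i = o i j ∧ d i j = o i j) :
    FV.Hy A 0 [] (mkF o d) := by
  refine ⟨fun i j hij => ?_, fun i j hij => ?_, fun c hc => absurd hc List.not_mem_nil⟩
  · intros
    rw [Nat.blt_eq] at hA'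
    have hb : 16 * i + j < 256 := by
      by_contra hcon
      have := Nat.testBit_lt_two_pow (lt_of_lt_of_le hA' (Nat.pow_le_pow_right (by norm_num) (not_lt.1 hcon)))
      rw [hij] at this
      exact absurd this (by decide)
    obtain ⟨b, hb'⟩ : ∃ b, b = 16 * i + j := ⟨_, rfl⟩
    obtain ⟨i₀, hi₀⟩ : ∃ i₀, i₀ = b / 16 := ⟨_, rfl⟩
    obtain ⟨j₀, hj₀⟩ : ∃ j₀, j₀ = b % 16 := ⟨_, rfl⟩
    have h1 : 16 * i₀ + j₀ = b := by omega
    obtain ⟨h2, h3, h4⟩ := hA i₀ (by omega) j₀ (by omega) (by rw [h1, hb']; exact hij)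
    have h5 : mkF o d (16 * i + j) = o i₀ j₀ := by
      rw [← hb', ← h1]
      exact mkF_o (by omega) (by omega)
    have h6 : mkF o d (256 + 16 * i + j) = d i₀ j₀ := by
      rw [show 256 + 16 * i + j = 256 + 16 * i₀ + j₀ from by omega]
      exact mkF_d h2 (by omega)
    refine ⟨?_, by rw [h6, h5, h4]⟩
    rw [h5]
    rcases lt_or_ge j 16 with h7 | h7
    · have h8 : i = i₀ := by omega
      have h9 : j = j₀ := by omega
      rw [h8, h9, mkF_o (by omega) (by omega), h3]
    · obtain ⟨t, ht⟩ : ∃ t, t = j / 16 := ⟨_, rfl⟩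
      have e1 : j = 16 * t + j₀ := by omega
      have e2 : i₀ = i + t := by omega
      have e3 : 16 * j + i = 256 * t + (16 * j₀ + i) := by omega
      have e4 : 16 * j₀ + i < 256 := by omega
      have e5 : (256 * t + (16 * j₀ + i)) / 256 = t := by omega
      have e8 : (256 * t + (16 * j₀ + i)) / 16 = 16 * t + j₀ := by omega
      have e6 : (256 * t + (16 * j₀ + i)) / 16 % 16 = j₀ := by rw [e8]; omega
      have e7 : (256 * t + (16 * j₀ + i)) % 16 = i := by omega
      rw [e3]
      unfold mkF
      rw [if_neg (by omega), e5, e6, e7, if_neg (by omega), e2]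
  · rw [Nat.zero_testBit] at hij
    exact absurd hij (by decide)

theorem mkF_some {o d : ℕ → ℕ → Bool} {o' d' : ℕ → ℕ → Option Bool}
    (ho : ∀ i j v, o' i j = some v → o i j = v) (hd : ∀ i j v, d' i j = some v → d i j = v) (b : ℕ) (v : Bool)
    (h : mkF o' d' b = some v) : mkF o d b = v := by
  unfold mkF at *
  split_ifs at * with h1 h2
  · exact ho _ _ _ h
  · exact hd _ _ _ h
  · exact ho _ _ _ h

/-- the check that the masks `P`, `N` are contained in the known bits `f` -/
def chkM (f : ℕ → Option Bool) (P N : ℕ) : Bool :=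
  Nat.blt P (2 ^ 256 * 2 ^ 256) && Nat.blt N (2 ^ 256 * 2 ^ 256) &&
    (List.range 512).all fun b => (!(P.testBit b) || f b == some true) && (!(N.testBit b) || f b == some false)

theorem lt_of_tb {P b e : ℕ} (hP : P < 2 ^ e * 2 ^ e) (hb : P.testBit b = true) : b < e + e := by
  rw [← pow_add] at hP
  by_contra hcon
  have h4 : P.testBit b = false :=
    Nat.testBit_lt_two_pow (lt_of_lt_of_le hP (Nat.pow_le_pow_right (by omega) (not_lt.1 hcon)))
  rw [hb] at h4
  exact absurd h4 (by decide)

theorem mt_of {f : ℕ → Option Bool} {F : ℕ → Bool} (hf : ∀ b v, f b = some v → F b = v) {P N : ℕ}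
    (h : chkM f P N = true) : Mt P N F := by
  simp only [chkM, Bool.and_eq_true, List.all_eq_true, List.mem_range, Bool.or_eq_true, Bool.not_eq_true',
    beq_iff_eq] at h
  obtain ⟨⟨h1, h2⟩, h3⟩ := h
  rw [Nat.blt_eq] at h1 h2
  refine ⟨fun b hb => hf b _ ?_, fun b hb => hf b _ ?_⟩
  · rcases (h3 b (lt_of_tb h1 hb)).1 with h4 | h4
    · rw [hb] at h4
      exact absurd h4 (by decide)
    · exact h4
  · rcases (h3 b (lt_of_tb h2 hb)).2 with h4 | h4
    · rw [hb] at h4
      exact absurd h4 (by decide)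
    · exact h4

/-! ### two rainbows -/

/-- the outer bits of two rainbows with the cross table `K`, rows `s .. s + 4` and `s + 5 .. s + 9`; the rows `< s` are
single vertices -/
def oP {β : Type} (f : Bool → β) (K : ℕ → ℕ → β) (s i j : ℕ) : β :=
  if i < s + 5 then (if j < s + 5 then f (rb (i - s) (j - s)) else K (i - s) (j - (s + 5)))
  else (if j < s + 5 then K (j - s) (i - (s + 5)) else f (rb (i - (s + 5)) (j - (s + 5))))

/-- the diagonal bits -/
def dP {β : Type} (f : Bool → β) (K : ℕ → ℕ → β) (s i j : ℕ) : β :=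
  if i < s + 5 then (if j < s + 5 then f (db (i - s) (j - s)) else K (i - s) (j - (s + 5)))
  else f (db (i - (s + 5)) (j - (s + 5)))

/-- the rows of two rainbows -/
def xP (R Q : ℕ → ℕ → V) (i k : ℕ) : V := if i < 5 then R i k else Q (i - 5) k

theorem hvP {G : SimpleGraph V} {R Q : ℕ → ℕ → V} {K : ℕ → ℕ → Bool} (hR : DR G 16 R) (hQ : DR G 16 Q)
    (h : HP G 16 R Q K) : FV.HV G 10 16 0 (xP R Q) (mkF (oP id K 0) (dP id K 0)) := by
  refine ⟨fun i hi => absurd hi (Nat.not_lt_zero i), ?_, ?_, ?_, fun i hi => absurd hi (Nat.not_lt_zero i)⟩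
  · intro i hi j hj k hk l hl hne
    unfold xP
    split_ifs with h1 h2 h2
    · exact hR.dis i h1 j h2 k hk l hl (hne.imp_right And.right)
    · exact h.dis i h1 _ (by omega) k hk l hl
    · exact (h.dis j h2 _ (by omega) l hl k hk).symm
    · exact hQ.dis _ (by omega) _ (by omega) k hk l hl (hne.imp (fun h3 => by omega) And.right)
  · intro i hi j hj _ _ k l hkl hl
    rw [mkF_o (by omega) (by omega)]
    unfold xP oP
    simp only [Nat.zero_add, Nat.sub_zero, id]
    split_ifs with h1 h2 h2
    · exact hR.rel i h1 j h2 k l hkl hl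
    · exact h.rel i h1 _ (by omega) k (by omega) l hl
    · rw [SimpleGraph.adj_comm]
      exact h.rel j h2 _ (by omega) l hl k (by omega)
    · exact hQ.rel _ (by omega) _ (by omega) k l hkl hl
  · intro i hi j hj _ hij k hk
    rw [mkF_d hij (by omega)]
    unfold xP dP
    simp only [Nat.zero_add, Nat.sub_zero, id]
    split_ifs with h1 h2 h2
    · exact hR.dg i h1 j h2 hij k hk
    · exact h.rel i h1 _ (by omega) k hk k hk
    · omega
    · exact hQ.dg _ (by omega) _ (by omega) (by omega) k hk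

theorem oP_some {K : ℕ → ℕ → Bool} {K' : ℕ → ℕ → Option Bool} (hK : ∀ i j v, K' i j = some v → K i j = v)
    {s i j : ℕ} {v : Bool} (h : oP some K' s i j = some v) : oP id K s i j = v := by
  unfold oP at *
  split_ifs at * <;> first | exact hK _ _ _ h | exact Option.some_inj.1 h

theorem dP_some {K : ℕ → ℕ → Bool} {K' : ℕ → ℕ → Option Bool} (hK : ∀ i j v, K' i j = some v → K i j = v)
    {s i j : ℕ} {v : Bool} (h : dP some K' s i j = some v) : dP id K s i j = v := by
  unfold dP at *
  split_ifs at * <;> first | exact hK _ _ _ h | exact Option.some_inj.1 h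

/-- the cross pairs are constant -/
theorem hyP {K : ℕ → ℕ → Bool} {A : ℕ} (hA' : Nat.blt A (2 ^ 256) = true)
    (hA : (List.range 16).all (fun i => (List.range 16).all fun j =>
      !(A.testBit (16 * i + j)) || (Nat.blt i 5 && Nat.ble 5 j && Nat.blt j 10)) = true) :
    FV.Hy A 0 [] (mkF (oP id K 0) (dP id K 0)) := by
  refine hy_of hA' fun i hi j hj hij => ?_
  simp only [List.all_eq_true, List.mem_range, Bool.or_eq_true, Bool.not_eq_true', Bool.and_eq_true] at hA
  rcases hA i hi j hj with h1 | ⟨⟨h1, h2⟩, h3⟩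
  · rw [hij] at h1
    exact absurd h1 (by decide)
  · rw [Nat.blt_eq] at h1 h3
    have h2' := Nat.le_of_ble_eq_true h2
    refine ⟨by omega, ?_, ?_⟩
    · unfold oP
      rw [if_neg (by omega), if_pos (by omega), if_pos (by omega), if_neg (by omega)]
    · unfold oP dP
      rw [if_pos (by omega), if_neg (by omega), if_pos (by omega), if_neg (by omega)]

end Pool.Agent.MPd439b2.CE
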