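import Pool.Agent.Lib.MP_d439b2_co.CE.Spec
import Pool.Agent.Lib.MP_d439b2_co.CE.WrapA
import Pool.Agent.Lib.MP_d439b2_co.CE.TabR
import Pool.Agent.Lib.MP_d439b2_co.CE.TabP

/-!
# MP_d439b2_co, CE: the tables E1, E2, E3 (helper23)
-/

set_option autoImplicit false

namespace Pool.Agent.MPd439b2.CE

open Pool.Agent.MPd439b2
open Pool.Agent.MPd439b2.FT (Mt)

variable {V : Type}

/-! ### single vertices and one rainbow -/

/-- the outer bits of a rainbow with the rows `s .. s + 4` -/
def oS {β : Type} (f : Bool → β) (s i j : ℕ) : β := f (rb (i - s) (j - s))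

/-- the diagonal bits; `a i j` is the adjacency of the single vertex `i` with the row `s + j`, `c` that of the single
vertices `0`, `1` -/
def dS {β : Type} (f : Bool → β) (a : ℕ → ℕ → β) (c : β) (s i j : ℕ) : β :=
  if s ≤ i then f (db (i - s) (j - s)) else if s ≤ j then a i (j - s) else c

/-- the rows -/
def xS (z : ℕ → V) (R : ℕ → ℕ → V) (s i k : ℕ) : V := if i < s then z i else R (i - s) k

theorem hvS {G : SimpleGraph V} {R : ℕ → ℕ → V} {z : ℕ → V} {a : ℕ → ℕ → Bool} {c : Bool} {s : ℕ} (hs : s ≤ 2)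
    (hR : DR G 16 R) (hz : ∀ i < s, HZ G 16 R (z i) (a i)) (hne : s = 2 → z 0 ≠ z 1)
    (hc : s = 2 → (G.Adj (z 0) (z 1) ↔ c = true)) :
    FV.HV G (s + 5) 16 s (xS z R s) (mkF (oS id s) (dS id a c s)) := by
  refine ⟨?_, ?_, ?_, ?_, ?_⟩
  · intro i hi k
    unfold xS
    rw [if_pos hi, if_pos hi]
  · intro i hi j hj k hk l hl hkl
    unfold xS
    split_ifs with h1 h2 h2
    · have hij : i ≠ j := by omega
      have hs2 : s = 2 := by omega
      rcases lt_or_gt_of_ne hij with h3 | h3
      · rw [show i = 0 from by omega, show j = 1 from by omega]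
        exact hne hs2
      · rw [show i = 1 from by omega, show j = 0 from by omega]
        exact (hne hs2).symm
    · exact (hz i h1).dis _ (by omega) l hl
    · exact ((hz j h2).dis _ (by omega) k hk).symm
    · exact hR.dis _ (by omega) _ (by omega) k hk l hl (hkl.imp (fun h3 => by omega) And.right)
  · intro i hi j hj h1 h2 k l hkl hl
    rw [mkF_o (by omega) (by omega)]
    unfold xS oS
    rw [if_neg (by omega), if_neg (by omega)]
    exact hR.rel _ (by omega) _ (by omega) k l hkl hl
  · intro i hi j hj h1 hij k hk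
    rw [mkF_d hij (by omega)]
    unfold xS dS
    rw [if_neg (by omega), if_neg (by omega), if_pos h1]
    exact hR.dg _ (by omega) _ (by omega) (by omega) k hk
  · intro i hi j hj hij k hk
    rw [mkF_d hij (by omega)]
    unfold xS dS
    rcases lt_or_ge j s with h1 | h1
    · rw [if_pos hi, if_pos h1, if_neg (by omega), if_neg (by omega), show i = 0 from by omega,
        show j = 1 from by omega]
      exact hc (by omega)
    · rw [if_pos hi, if_neg (by omega), if_neg (by omega), if_pos h1]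
      exact (hz i hi).rel _ (by omega) k hk

theorem hyS {o d : ℕ → ℕ → Bool} : FV.Hy 0 0 [] (mkF o d) :=
  hy_of (by decide) fun i _ j _ h => by
    rw [Nat.zero_testBit] at h
    exact absurd h (by decide)

theorem dS_some {a : ℕ → ℕ → Bool} {c : Bool} {a' : ℕ → ℕ → Option Bool} {c' : Option Bool}
    (ha : ∀ i j v, a' i j = some v → a i j = v) (hc : ∀ v, c' = some v → c = v) {s i j : ℕ} {v : Bool}
    (h : dS some a' c' s i j = some v) : dS id a c s i j = v := by
  unfold dS at *
  split_ifs at * <;> first | exact ha _ _ _ h | exact hc _ h | exact Option.some_inj.1 h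

theorem mtS {a : ℕ → ℕ → Bool} {c : Bool} {a' : ℕ → ℕ → Option Bool} {c' : Option Bool}
    (ha : ∀ i j v, a' i j = some v → a i j = v) (hc : ∀ v, c' = some v → c = v) {s P N : ℕ}
    (h : chkM (mkF (oS some s) (dS some a' c' s)) P N = true) : Mt P N (mkF (oS id s) (dS id a c s)) :=
  mt_of (fun b v hb => mkF_some (fun _ _ _ hv => Option.some_inj.1 hv) (fun _ _ _ hv => dS_some ha hc hv) b v hb) h

/-- the known adjacencies of one vertex -/
def kz (p q r : Option Bool) (i j : ℕ) : Option Bool :=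
  if i = 0 then (match j with
    | 0 => some false
    | 4 => some false
    | 1 => p
    | 2 => q
    | 3 => r
    | _ => none) else none

theorem kz_some {a : ℕ → Bool} {p q r : Option Bool} (h0 : a 0 = false) (h4 : a 4 = false)
    (h1 : ∀ v, p = some v → a 1 = v) (h2 : ∀ v, q = some v → a 2 = v) (h3 : ∀ v, r = some v → a 3 = v)
    (i j : ℕ) (v : Bool) (h : kz p q r i j = some v) : (fun _ => a) i j = v := by
  unfold kz at h
  split_ifs at h
  split at h
  · exact h0.trans (Option.some_inj.1 h)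
  · exact h4.trans (Option.some_inj.1 h)
  · exact h1 _ h
  · exact h2 _ h
  · exact h3 _ h
  · exact absurd h (by simp)

theorem r1 : S_R1 := by
  intro V G hH hJ R z a hR hz h0 h4
  have hv := hvS (s := 1) (z := fun _ => z) (a := fun _ => a) (c := false) (by omega) hR (fun _ _ => hz)
    (fun h => absurd h (by omega)) (fun h => absurd h (by omega))
  have e2 : a 2 = false := by
    cases h2 : a 2
    · rfl
    · exact (TabR.r1s hH hJ hv hyS (mtS (a' := kz none (some true) none) (c' := none)
        (kz_some h0 h4 (fun _ hv => absurd hv (by simp)) (fun _ hv => h2.trans (Option.some_inj.1 hv))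
          (fun _ hv => absurd hv (by simp))) (fun _ hv => absurd hv (by simp)) (by decide +kernel))).elim
  refine ⟨e2, fun h1 => ?_⟩
  cases h3 : a 3
  · rfl
  · exact (TabR.r1w hH hJ hv hyS (mtS (a' := kz (some false) (some false) (some true)) (c' := none)
      (kz_some h0 h4 (fun _ hv => h1.trans (Option.some_inj.1 hv)) (fun _ hv => e2.trans (Option.some_inj.1 hv))
        (fun _ hv => h3.trans (Option.some_inj.1 hv))) (fun _ hv => absurd hv (by simp))
        (by decide +kernel))).elim

/-- the known adjacencies of a pair of mates -/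
def kt (u t p r : Bool) (i j : ℕ) : Option Bool :=
  if i = 0 then (match j with
    | 0 => some u
    | 4 => some t
    | _ => none)
  else if i = 1 then (match j with
    | 0 => some false
    | 4 => some false
    | 2 => some false
    | 1 => some p
    | 3 => some r
    | _ => none) else none

theorem r5 : S_R5 := by
  intro V G hH hJ R c₀ s₀ a a' hR hc hs hne hadj h0 h4
  have e2 : a' 2 = false := (r1 V G hH hJ R s₀ a' hR hs h0 h4).1
  have hv := hvS (s := 2) (z := fun i => if i = 0 then c₀ else s₀) (a := fun i => if i = 0 then a else a')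
    (c := false) (by omega) hR (fun i hi => by
      split_ifs
      · exact hc
      · exact hs) (fun _ => by simpa using hne) (fun _ => by simpa using hadj)
  have key : ∀ u t p r : Bool, a 0 = u → a 4 = t → a' 1 = p → a' 3 = r → ∀ {P N : ℕ},
      chkM (mkF (oS some 2) (dS some (kt u t p r) (some false) 2)) P N = true →
      Mt P N (mkF (oS id 2) (dS id (fun i => if i = 0 then a else a') false 2)) := by
    intro u t p r hu ht hp hr P N hch
    refine mtS (a' := kt u t p r) (c' := some false) ?_ (fun _ hv => Option.some_inj.1 hv) hch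
    intro i j v h
    unfold kt at h
    split_ifs at h with h5 h6
    · simp only [h5, if_true]
      split at h
      · exact hu.trans (Option.some_inj.1 h)
      · exact ht.trans (Option.some_inj.1 h)
      · exact absurd h (by simp)
    · simp only [h5, if_false]
      split at h
      · exact h0.trans (Option.some_inj.1 h)
      · exact h4.trans (Option.some_inj.1 h)
      · exact e2.trans (Option.some_inj.1 h)
      · exact hp.trans (Option.some_inj.1 h)
      · exact hr.trans (Option.some_inj.1 h)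
      · exact absurd h (by simp)
  have key' : a' 1 = false → a' 3 = false := (r1 V G hH hJ R s₀ a' hR hs h0 h4).2
  refine ⟨fun h1 h2 => ?_, fun h1 h2 => ?_, fun h1 => ?_⟩
  · obtain ⟨h3, h5⟩ := Prod.mk.inj h1
    obtain ⟨h6, h7⟩ := Prod.mk.inj h2
    exact TabR.r5_00I hH hJ hv hyS (key _ _ _ _ h3 h5 h6 h7 (by decide +kernel))
  · obtain ⟨h3, h5⟩ := Prod.mk.inj h1
    obtain ⟨h6, h7⟩ := Prod.mk.inj h2
    exact TabR.r5_10B hH hJ hv hyS (key _ _ _ _ h3 h5 h6 h7 (by decide +kernel))
  · obtain ⟨h3, h5⟩ := Prod.mk.inj h1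
    cases h6 : a' 1
    · exact TabR.r5_01A hH hJ hv hyS (key _ _ _ _ h3 h5 h6 (key' h6) (by decide +kernel))
    · cases h7 : a' 3
      · exact TabR.r5_01I hH hJ hv hyS (key _ _ _ _ h3 h5 h6 h7 (by decide +kernel))
      · exact TabR.r5_01B hH hJ hv hyS (key _ _ _ _ h3 h5 h6 h7 (by decide +kernel))

/-! ### two rainbows -/

/-- the known bits of a pair with the pattern `p` -/
def Kt (p : (Bool × Bool) × (Bool × Bool) × (Bool × Bool) × (Bool × Bool)) : ℕ → ℕ → Option Bool
  | 0, 0 => some false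
  | 0, 4 => some false
  | 4, 0 => some false
  | 4, 4 => some false
  | 1, 0 => some p.1.1
  | 3, 0 => some p.1.2
  | 1, 4 => some p.2.1.1
  | 3, 4 => some p.2.1.2
  | 0, 1 => some p.2.2.1.1
  | 0, 3 => some p.2.2.1.2
  | 4, 1 => some p.2.2.2.1
  | 4, 3 => some p.2.2.2.2
  | _, _ => none

/-- the legs are not adjacent -/
def Lg (K : ℕ → ℕ → Bool) : Prop := K 0 0 = false ∧ K 0 4 = false ∧ K 4 0 = false ∧ K 4 4 = false

theorem Kt_some {K : ℕ → ℕ → Bool} (hl : Lg K) (i j : ℕ) (v : Bool) (h : Kt (pat K) i j = some v) : K i j = v := by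
  obtain ⟨h1, h2, h3, h4⟩ := hl
  unfold Kt pat at h
  split at h <;> first
    | exact h1.trans (Option.some_inj.1 h)
    | exact h2.trans (Option.some_inj.1 h)
    | exact h3.trans (Option.some_inj.1 h)
    | exact h4.trans (Option.some_inj.1 h)
    | exact Option.some_inj.1 h
    | exact absurd h (by simp)

theorem mtP {K : ℕ → ℕ → Bool} (hl : Lg K)
    {p : (Bool × Bool) × (Bool × Bool) × (Bool × Bool) × (Bool × Bool)} (hp : pat K = p) {P N : ℕ}
    (h : chkM (mkF (oP some (Kt p) 0) (dP some (Kt p) 0)) P N = true) : Mt P N (mkF (oP id K 0) (dP id K 0)) :=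
  mt_of (fun b v hb => mkF_some (fun _ _ _ hv => oP_some (K' := Kt p) (fun i j v hv' => Kt_some hl i j v
      (by rw [hp]; exact hv')) hv)
    (fun _ _ _ hv => dP_some (K' := Kt p) (fun i j v hv' => Kt_some hl i j v (by rw [hp]; exact hv')) hv) b v hb) h

theorem pt_aux {G : SimpleGraph V} (hH : ¬ IMS (KA 3 3 ![{0}, {1}, {0, 2}]) G Set.univ)
    (hJ : ¬ IMS (F9.JS ![0, 1, 1] 2) G Set.univ) {T Q : ℕ → ℕ → V} {K : ℕ → ℕ → Bool} (hT : DR G 16 T)
    (hQ : DR G 16 Q) (h : HP G 16 T Q K) (hl : Lg K) :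
    pat K ≠ (cA, cI, cI, cB) ∧ pat K ≠ (cB, cA, cI, cI) ∧ pat K ≠ (cB, cI, cB, cI) ∧ pat K ≠ (cI, cA, cI, cA) := by
  have hv := hvP hT hQ h
  refine ⟨fun hp => ?_, fun hp => ?_, fun hp => ?_, fun hp => ?_⟩
  · exact TabP.pAIIB hH hJ hv (hyP (by decide) (by decide +kernel)) (mtP hl hp (by decide +kernel))
  · exact TabP.pBAII hH hJ hv (hyP (by decide) (by decide +kernel)) (mtP hl hp (by decide +kernel))
  · exact TabP.pBIBI hH hJ hv (hyP (by decide) (by decide +kernel)) (mtP hl hp (by decide +kernel))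
  · exact TabP.pIAIA hH hJ hv (hyP (by decide) (by decide +kernel)) (mtP hl hp (by decide +kernel))

theorem code_of {p q : Bool} (h : p = false → q = false) : (p, q) = cA ∨ (p, q) = cI ∨ (p, q) = cB := by
  revert h
  unfold cA cI cB
  revert p q
  decide

theorem Lg.swap {K : ℕ → ℕ → Bool} (h : Lg K) : Lg fun i j => K j i := ⟨h.1, h.2.2.1, h.2.1, h.2.2.2⟩

/-- a leg seen by the other rainbow -/
theorem leg_code {G : SimpleGraph V} (hH : ¬ IMS (KA 3 3 ![{0}, {1}, {0, 2}]) G Set.univ)
    (hJ : ¬ IMS (F9.JS ![0, 1, 1] 2) G Set.univ) {T Q : ℕ → ℕ → V} {K : ℕ → ℕ → Bool} (hT : DR G 16 T)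
    (h : HP G 16 T Q K) {j : ℕ} (hj : j < 5) (h0 : K 0 j = false) (h4 : K 4 j = false) :
    (K 1 j, K 3 j) = cA ∨ (K 1 j, K 3 j) = cI ∨ (K 1 j, K 3 j) = cB := by
  have hz : HZ G 16 T (Q j 0) (fun i => K i j) :=
    ⟨fun i hi k hk => (h.dis i hi j hj k hk 0 (by omega)).symm, fun i hi k hk => by
      rw [SimpleGraph.adj_comm]
      exact h.rel i hi j hj k hk 0 (by omega)⟩
  exact code_of (r1 V G hH hJ T _ _ hT hz h0 h4).2

theorem pt : S_Pt := by
  intro V G hH hJ T Q K hT hQ h h00 h04 h40 h44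
  have hl : Lg K := ⟨h00, h04, h40, h44⟩
  obtain ⟨e1, e2, e3, e4⟩ := pt_aux hH hJ hT hQ h hl
  obtain ⟨f1, f2, f3, f4⟩ := pt_aux hH hJ hQ hT h.swap hl.swap
  refine ⟨leg_code hH hJ hT h (by omega) h00 h40, leg_code hH hJ hT h (by omega) h04 h44,
    leg_code hH hJ hQ h.swap (by omega) h00 h04, leg_code hH hJ hQ h.swap (by omega) h40 h44, e1, ?_, e2, ?_, e3, e4⟩
  · intro hp
    refine f1 ?_
    unfold pat at hp ⊢
    simp only [Prod.mk.injEq] at hp ⊢
    exact ⟨hp.2.2.1, hp.2.2.2, hp.1, hp.2.1⟩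
  · intro hp
    refine f2 ?_
    unfold pat at hp ⊢
    simp only [Prod.mk.injEq] at hp ⊢
    exact ⟨hp.2.2.1, hp.2.2.2, hp.1, hp.2.1⟩

end Pool.Agent.MPd439b2.CE
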