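import Pool.Agent.Lib.MP_d439b2_co.CE.WrapB
import Pool.Agent.Lib.MP_d439b2_co.CE.TabZ

/-!
# MP_d439b2_co, CE: the table E4 (helper23)
-/

set_option autoImplicit false

namespace Pool.Agent.MPd439b2.CE

open Pool.Agent.MPd439b2
open Pool.Agent.MPd439b2.FT (Mt)

variable {V : Type}

/-- the diagonal bits: a vertex (row `0`) and two rainbows -/
def dZ {β : Type} (f : Bool → β) (K : ℕ → ℕ → β) (a a' : ℕ → β) (i j : ℕ) : β :=
  if i = 0 then (if j < 6 then a (j - 1) else a' (j - 6)) else dP f K 1 i j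

/-- the rows -/
def xZ (z : V) (T Q : ℕ → ℕ → V) (i k : ℕ) : V := if i = 0 then z else xP T Q (i - 1) k

theorem hvZ {G : SimpleGraph V} {T Q : ℕ → ℕ → V} {K : ℕ → ℕ → Bool} {z : V} {a a' : ℕ → Bool}
    (hT : DR G 16 T) (hQ : DR G 16 Q) (h : HP G 16 T Q K) (hz : HZ G 16 T z a) (hz' : HZ G 16 Q z a') :
    FV.HV G 11 16 1 (xZ z T Q) (mkF (oP id K 1) (dZ id K a a')) := by
  have hv := hvP hT hQ h
  have ho : ∀ i < 10, ∀ j < 10, oP id K 1 (i + 1) (j + 1) = oP id K 0 i j := by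
    intro i hi j hj
    unfold oP
    simp only [Nat.zero_add, Nat.sub_zero, id, Nat.add_sub_cancel]
    by_cases h1 : i < 5 <;> by_cases h2 : j < 5
    · rw [if_pos (by omega), if_pos (by omega), if_pos h1, if_pos h2]
    · rw [if_pos (by omega), if_neg (by omega), if_pos h1, if_neg h2, show j + 1 - (1 + 5) = j - 5 from by omega]
    · rw [if_neg (by omega), if_pos (by omega), if_neg h1, if_pos h2, show i + 1 - (1 + 5) = i - 5 from by omega]
    · rw [if_neg (by omega), if_neg (by omega), if_neg h1, if_neg h2, show i + 1 - (1 + 5) = i - 5 from by omega,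
        show j + 1 - (1 + 5) = j - 5 from by omega]
  have hd : ∀ i < 10, ∀ j < 10, dP id K 1 (i + 1) (j + 1) = dP id K 0 i j := by
    intro i hi j hj
    unfold dP
    simp only [Nat.zero_add, Nat.sub_zero, id, Nat.add_sub_cancel]
    by_cases h1 : i < 5 <;> by_cases h2 : j < 5
    · rw [if_pos (by omega), if_pos (by omega), if_pos h1, if_pos h2]
    · rw [if_pos (by omega), if_neg (by omega), if_pos h1, if_neg h2, show j + 1 - (1 + 5) = j - 5 from by omega]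
    · rw [if_neg (by omega), if_neg h1, show i + 1 - (1 + 5) = i - 5 from by omega,
        show j + 1 - (1 + 5) = j - 5 from by omega]
    · rw [if_neg (by omega), if_neg h1, show i + 1 - (1 + 5) = i - 5 from by omega,
        show j + 1 - (1 + 5) = j - 5 from by omega]
  have hx : ∀ i k, xZ z T Q (i + 1) k = xP T Q i k := by
    intro i k
    unfold xZ
    rw [if_neg (by omega), Nat.add_sub_cancel]
  have hzd : ∀ i < 10, ∀ k < 16, z ≠ xP T Q i k := by
    intro i hi k hk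
    unfold xP
    split_ifs with h1
    · exact hz.dis i h1 k hk
    · exact hz'.dis _ (by omega) k hk
  refine ⟨?_, ?_, ?_, ?_, ?_⟩
  · intro i hi k
    rw [show i = 0 from by omega]
    rfl
  · intro i hi j hj k hk l hl hkl
    rcases i with _ | i <;> rcases j with _ | j
    · omega
    · rw [hx]
      exact hzd j (by omega) l hl
    · rw [hx]
      exact (hzd i (by omega) k hk).symm
    · rw [hx, hx]
      exact hv.dis i (by omega) j (by omega) k hk l hl (by omega)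
  · intro i hi j hj h1 h2 k l hkl hl
    obtain ⟨i, rfl⟩ : ∃ i', i = i' + 1 := ⟨i - 1, by omega⟩
    obtain ⟨j, rfl⟩ : ∃ j', j = j' + 1 := ⟨j - 1, by omega⟩
    rw [mkF_o (by omega) (by omega), hx, hx, ho i (by omega) j (by omega),
      hv.rel i (by omega) j (by omega) (by omega) (by omega) k l hkl hl, mkF_o (by omega) (by omega)]
  · intro i hi j hj h1 hij k hk
    obtain ⟨i, rfl⟩ : ∃ i', i = i' + 1 := ⟨i - 1, by omega⟩
    obtain ⟨j, rfl⟩ : ∃ j', j = j' + 1 := ⟨j - 1, by omega⟩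
    rw [mkF_d hij (by omega), hx, hx,
      hv.dg i (by omega) j (by omega) (by omega) (by omega) k hk, mkF_d (by omega) (by omega)]
    unfold dZ
    rw [if_neg (by omega), hd i (by omega) j (by omega)]
  · intro i hi j hj hij k hk
    obtain ⟨j, rfl⟩ : ∃ j', j = j' + 1 := ⟨j - 1, by omega⟩
    rw [show i = 0 from by omega, mkF_d (by omega) (by omega), hx]
    unfold dZ xP
    rw [if_pos rfl]
    change G.Adj z _ ↔ _
    by_cases h1 : j < 5
    · rw [if_pos h1, if_pos (by omega), Nat.add_sub_cancel]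
      exact hz.rel j h1 k hk
    · rw [if_neg h1, if_neg (by omega), show j + 1 - 6 = j - 5 from by omega]
      exact hz'.rel _ (by omega) k hk

theorem dZ_some {K : ℕ → ℕ → Bool} {K' : ℕ → ℕ → Option Bool} {a a' : ℕ → Bool} {b b' : ℕ → Option Bool}
    (hK : ∀ i j v, K' i j = some v → K i j = v) (ha : ∀ j v, b j = some v → a j = v)
    (ha' : ∀ j v, b' j = some v → a' j = v) {i j : ℕ} {v : Bool} (h : dZ some K' b b' i j = some v) :
    dZ id K a a' i j = v := by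
  unfold dZ at *
  split_ifs at *
  · exact ha _ _ h
  · exact ha' _ _ h
  · exact dP_some hK h

theorem hyZ {K : ℕ → ℕ → Bool} {a a' : ℕ → Bool} {A : ℕ} (hA' : Nat.blt A (2 ^ 256) = true)
    (hA : (List.range 16).all (fun i => (List.range 16).all fun j =>
      !(A.testBit (16 * i + j)) || (Nat.ble 1 i && Nat.blt i 6 && Nat.ble 6 j && Nat.blt j 11)) = true) :
    FV.Hy A 0 [] (mkF (oP id K 1) (dZ id K a a')) := by
  refine hy_of hA' fun i hi j hj hij => ?_
  simp only [List.all_eq_true, List.mem_range, Bool.or_eq_true, Bool.not_eq_true', Bool.and_eq_true] at hA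
  rcases hA i hi j hj with h1 | ⟨⟨⟨h0, h1⟩, h2⟩, h3⟩
  · rw [hij] at h1
    exact absurd h1 (by decide)
  · rw [Nat.blt_eq] at h1 h3
    have h2' := Nat.le_of_ble_eq_true h2
    have h0' := Nat.le_of_ble_eq_true h0
    refine ⟨by omega, ?_, ?_⟩
    · unfold oP
      rw [if_neg (by omega), if_pos (by omega), if_pos (by omega), if_neg (by omega)]
    · unfold dZ oP dP
      rw [if_neg (by omega), if_pos (by omega), if_neg (by omega), if_pos (by omega), if_neg (by omega)]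

/-- the known adjacencies of the vertex with the code `p` -/
def kc (p : Bool × Bool) : ℕ → Option Bool
  | 0 => some false
  | 2 => some false
  | 4 => some false
  | 1 => some p.1
  | 3 => some p.2
  | _ => none

theorem kc_some {a : ℕ → Bool} {p : Bool × Bool} (h0 : a 0 = false) (h2 : a 2 = false) (h4 : a 4 = false)
    (hp : (a 1, a 3) = p) (j : ℕ) (v : Bool) (h : kc p j = some v) : a j = v := by
  subst hp
  unfold kc at h
  split at h
  · exact h0.trans (Option.some_inj.1 h)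
  · exact h2.trans (Option.some_inj.1 h)
  · exact h4.trans (Option.some_inj.1 h)
  · exact Option.some_inj.1 h
  · exact Option.some_inj.1 h
  · exact absurd h (by simp)

/-- the side conditions of E4 -/
structure Zc (G : SimpleGraph V) (T Q : ℕ → ℕ → V) (K : ℕ → ℕ → Bool) (z : V) (a a' : ℕ → Bool) : Prop where
  hH : ¬ IMS (KA 3 3 ![{0}, {1}, {0, 2}]) G Set.univ
  hJ : ¬ IMS (F9.JS ![0, 1, 1] 2) G Set.univ
  hT : DR G 16 T
  hQ : DR G 16 Q
  hP : HP G 16 T Q K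
  hl : Lg K
  hz : HZ G 16 T z a
  hz' : HZ G 16 Q z a'
  h0 : a 0 = false
  h4 : a 4 = false
  h0' : a' 0 = false
  h4' : a' 4 = false

theorem Zc.swap {G : SimpleGraph V} {T Q : ℕ → ℕ → V} {K : ℕ → ℕ → Bool} {z : V} {a a' : ℕ → Bool}
    (h : Zc G T Q K z a a') : Zc G Q T (fun i j => K j i) z a' a :=
  ⟨h.hH, h.hJ, h.hQ, h.hT, h.hP.swap, h.hl.swap, h.hz', h.hz, h.h0', h.h4', h.h0, h.h4⟩

theorem mtZ {G : SimpleGraph V} {T Q : ℕ → ℕ → V} {K : ℕ → ℕ → Bool} {z : V} {a a' : ℕ → Bool}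
    (h : Zc G T Q K z a a') {p : (Bool × Bool) × (Bool × Bool) × (Bool × Bool) × (Bool × Bool)}
    (hp : pat K = p) {c c' : Bool × Bool} (hc : (a 1, a 3) = c) (hc' : (a' 1, a' 3) = c') {P N : ℕ}
    (hch : chkM (mkF (oP some (Kt p) 1) (dZ some (Kt p) (kc c) (kc c'))) P N = true) :
    Mt P N (mkF (oP id K 1) (dZ id K a a')) := by
  have h2 := (r1 V G h.hH h.hJ T z a h.hT h.hz h.h0 h.h4).1
  have h2' := (r1 V G h.hH h.hJ Q z a' h.hQ h.hz' h.h0' h.h4').1
  have hK : ∀ i j v, Kt p i j = some v → K i j = v := fun i j v hv => Kt_some h.hl i j v (by rw [hp]; exact hv)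
  exact mt_of (fun b v hb => mkF_some (fun _ _ _ hv => oP_some hK hv)
    (fun _ _ _ hv => dZ_some hK (kc_some h.h0 h2 h.h4 hc) (kc_some h.h0' h2' h.h4' hc') hv) b v hb) hch

section tables

variable {G : SimpleGraph V} {T Q : ℕ → ℕ → V} {K : ℕ → ℕ → Bool} {z : V} {a a' : ℕ → Bool}

theorem z1 (h : Zc G T Q K z a a') (hp : pat K = (cI, cI, cA, cB)) :
    ¬ ((a 1, a 3) = cB ∧ (a' 1, a' 3) = cA) ∧ ¬ ((a 1, a 3) = cB ∧ (a' 1, a' 3) = cI) ∧
    ¬ ((a 1, a 3) = cA ∧ (a' 1, a' 3) = cB) ∧ ¬ ((a 1, a 3) = cA ∧ (a' 1, a' 3) = cI) := by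
  have hv := hvZ h.hT h.hQ h.hP h.hz h.hz'
  refine ⟨fun hc => ?_, fun hc => ?_, fun hc => ?_, fun hc => ?_⟩
  · exact TabZ.zIIAB_BA h.hH h.hJ hv (hyZ (by decide) (by decide +kernel)) (mtZ h hp hc.1 hc.2 (by decide +kernel))
  · exact TabZ.zIIAB_BI h.hH h.hJ hv (hyZ (by decide) (by decide +kernel)) (mtZ h hp hc.1 hc.2 (by decide +kernel))
  · exact TabZ.zIIAB_AB h.hH h.hJ hv (hyZ (by decide) (by decide +kernel)) (mtZ h hp hc.1 hc.2 (by decide +kernel))
  · exact TabZ.zIIAB_AI h.hH h.hJ hv (hyZ (by decide) (by decide +kernel)) (mtZ h hp hc.1 hc.2 (by decide +kernel))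

theorem z2 (h : Zc G T Q K z a a') (hp : pat K = (cB, cB, cA, cA)) :
    ¬ ((a 1, a 3) = cI ∧ (a' 1, a' 3) = cB) ∧ ¬ ((a 1, a 3) = cA ∧ (a' 1, a' 3) = cB) ∧
    ¬ ((a 1, a 3) = cA ∧ (a' 1, a' 3) = cI) := by
  have hv := hvZ h.hT h.hQ h.hP h.hz h.hz'
  refine ⟨fun hc => ?_, fun hc => ?_, fun hc => ?_⟩
  · exact TabZ.zBBAA_IB h.hH h.hJ hv (hyZ (by decide) (by decide +kernel)) (mtZ h hp hc.1 hc.2 (by decide +kernel))
  · exact TabZ.zBBAA_AB h.hH h.hJ hv (hyZ (by decide) (by decide +kernel)) (mtZ h hp hc.1 hc.2 (by decide +kernel))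
  · exact TabZ.zBBAA_AI h.hH h.hJ hv (hyZ (by decide) (by decide +kernel)) (mtZ h hp hc.1 hc.2 (by decide +kernel))

theorem z3 (h : Zc G T Q K z a a') (hp : pat K = (cB, cB, cB, cB)) : ¬ ((a 1, a 3) = cI ∧ (a' 1, a' 3) = cA) := by
  have hv := hvZ h.hT h.hQ h.hP h.hz h.hz'
  intro hc
  exact TabZ.zBBBB_IA h.hH h.hJ hv (hyZ (by decide) (by decide +kernel)) (mtZ h hp hc.1 hc.2 (by decide +kernel))

theorem z4 (h : Zc G T Q K z a a') (hp : pat K = (cA, cA, cA, cA)) :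
    ¬ ((a 1, a 3) = cI ∧ (a' 1, a' 3) = cB) ∧ ¬ ((a 1, a 3) = cB ∧ (a' 1, a' 3) = cB) := by
  have hv := hvZ h.hT h.hQ h.hP h.hz h.hz'
  refine ⟨fun hc => ?_, fun hc => ?_⟩
  · exact TabZ.zAAAA_IB h.hH h.hJ hv (hyZ (by decide) (by decide +kernel)) (mtZ h hp hc.1 hc.2 (by decide +kernel))
  · exact TabZ.zAAAA_BB h.hH h.hJ hv (hyZ (by decide) (by decide +kernel)) (mtZ h hp hc.1 hc.2 (by decide +kernel))

end tables

theorem zt : S_Zt := by
  intro V G hH hJ T Q K z a a' hT hQ hP h00 h04 h40 h44 hz hz' h0 h4 h0' h4'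
  have h : Zc G T Q K z a a' := ⟨hH, hJ, hT, hQ, hP, ⟨h00, h04, h40, h44⟩, hz, hz', h0, h4, h0', h4'⟩
  have hc' := code_of (r1 V G hH hJ Q z a' hQ hz' h0' h4').2
  refine ⟨fun hp => ⟨fun hc => ?_, fun hc => ?_⟩, fun hp => z2 h hp, fun hp => ⟨z3 h hp, fun hc => ?_⟩,
    fun hp => ⟨(z4 h hp).1, fun hc => ?_, (z4 h hp).2⟩⟩
  · rcases hc' with h1 | h1 | h1
    · exact h1
    · exact absurd ⟨hc, h1⟩ (z1 h hp).2.2.2
    · exact absurd ⟨hc, h1⟩ (z1 h hp).2.2.1
  · rcases hc' with h1 | h1 | h1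
    · exact absurd ⟨hc, h1⟩ (z1 h hp).1
    · exact absurd ⟨hc, h1⟩ (z1 h hp).2.1
    · exact h1
  · refine z3 h.swap ?_ ⟨hc.2, hc.1⟩
    unfold pat at hp ⊢
    simp only [Prod.mk.injEq] at hp ⊢
    exact ⟨hp.2.2.1, hp.2.2.2, hp.1, hp.2.1⟩
  · refine (z4 h.swap ?_).1 ⟨hc.2, hc.1⟩
    unfold pat at hp ⊢
    simp only [Prod.mk.injEq] at hp ⊢
    exact ⟨hp.2.2.1, hp.2.2.2, hp.1, hp.2.1⟩

end Pool.Agent.MPd439b2.CE
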