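import Pool.Agent.Lib.MP_d439b2_co.CE.Defs

/-!
# MP_d439b2_co, CE, Spec: the clean end for `K3:0,1,02` and `J_2` (helper23, note 3162, sections 1 - 4)

Every `S_...` is a statement to be proved in its own file `CE/<Name>.lean`; the docstring contains the complete proof.
The result is `S_Good`: every long rainbow `ε` of a stable class `i` has an interval `{x | p ≤ ρ x < q}` which begins
between its left legs, ends between its right legs and is not left by long rainbows.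

Everywhere `T, Q, U` are rainbows (`Rain`) of any sign.
-/

set_option autoImplicit false

namespace Pool.Agent.MPd439b2.CE

open Pool.Agent.MPd439b2

section defs

variable {V : Type} {n : ℕ}

/-- **The context**: a staircase structure with at most `b` exceptions at every vertex, a stable class `i`, and `G` has
no induced minor `K3:0,1,02`, `J_2` -/
structure Cx (S : X2.St V n) (G : SimpleGraph V) (i : Fin n) (b : ℕ) : Prop where
  ex : BT.ExcB S G b
  st : S.t i = false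
  hH : ¬ IMS (KA 3 3 ![{0}, {1}, {0, 2}]) G Set.univ
  hJ : ¬ IMS (F9.JS ![0, 1, 1] 2) G Set.univ

/-- `κ` selects `m` of the indices `0, .., M - 1` -/
structure Sel (m M : ℕ) (κ : ℕ → ℕ) : Prop where
  lt : ∀ k < m, κ k < M
  mono : ∀ k l, k < l → l < m → κ k < κ l

/-- `z` has no neighbour in the class `i` -/
def An (S : X2.St V n) (G : SimpleGraph V) (i : Fin n) (z : V) : Prop := ∀ x, S.c x = i → ¬ G.Adj z x

/-- the rainbow `R` (of sign `σ`) sees `z` at `P` -/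
def Sees (G : SimpleGraph V) (σ : Bool) (m : ℕ) (R : ℕ → ℕ → V) (z : V) (P : Pos) : Prop :=
  ∃ a, HZ G m R z a ∧ posZ σ a = P

/-- no exceptional pair contains `z` and a vertex of the rainbow -/
def Nx (S : X2.St V n) (G : SimpleGraph V) (m : ℕ) (R : ℕ → ℕ → V) (z : V) : Prop :=
  ∀ j < 5, ∀ k < m, ¬ BT.Exc S G z (R j k)

/-- the codes: `A = (false, false)`, `I = (true, false)`, `B = (true, true)` -/
def cA : Bool × Bool := (false, false)

def cI : Bool × Bool := (true, false)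

def cB : Bool × Bool := (true, true)

/-- **The pattern** of a homogeneous pair `R, Q` with the table `K`: how `R` sees `Q 0`, `Q 4` and how `Q` sees `R 0`,
`R 4` (adjacency with the rails `1` and `3`) -/
def pat (K : ℕ → ℕ → Bool) : (Bool × Bool) × (Bool × Bool) × (Bool × Bool) × (Bool × Bool) :=
  ((K 1 0, K 3 0), (K 1 4, K 3 4), (K 0 1, K 0 3), (K 4 1, K 4 3))

/-- positions of a vertex seen by an outer rainbow (`P`) and by an inner one (`P'`) -/
def NN (P P' : Pos) : Prop := (P = Pos.R → P' = Pos.R) ∧ (P = Pos.L → P' = Pos.L)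

/-- positions of a vertex seen by a rainbow of sign `σ` (`P`) and by one of sign `τ` to the right of it (`P'`) -/
def ND (σ τ : Bool) (P P' : Pos) : Prop :=
  ¬ (P = Pos.I ∧ P' = Pos.R) ∧ ¬ (P = Pos.L ∧ P' = Pos.I) ∧ (P = Pos.L → P' = Pos.R → σ = true ∧ τ = false)

/-- **The alternatives** for two arcs `l, r` (sign `σ`) and `l', r'` (sign `τ`) and the positions `P, P'`: the first one
outside, the second one outside, the first one before the second one, the second one before the first one -/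
def Alt (σ τ : Bool) (P P' : Pos) (l r l' r' : ℕ) : Prop :=
  (l < l' ∧ r' < r ∧ NN P P') ∨ (l' < l ∧ r < r' ∧ NN P' P) ∨ (r < l' ∧ ND σ τ P P') ∨ (r' < l ∧ ND τ σ P' P)

/-- the numbers which compete for `π`: the left leg of the middle member of a rainbow of size `2 K + 1` which sees `z`
on the left, the right leg of the middle member of one which sees `z` inside -/
def Qz (S : X2.St V n) (G : SimpleGraph V) (i : Fin n) (K : ℕ) (z : V) (q : ℕ) : Prop :=
  ∃ σ U, Rain S G i σ (2 * K + 1) U ∧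
    ((Sees G σ (2 * K + 1) U z Pos.L ∧ q = S.ρ (LL σ U K)) ∨
      (Sees G σ (2 * K + 1) U z Pos.I ∧ q = S.ρ (RL σ U K)))

/-- **Good interval** `{x | p ≤ ρ x < q}`: no rainbow of size `N`, of any sign, has exactly one family of legs in it -/
def GdR (S : X2.St V n) (G : SimpleGraph V) (i : Fin n) (N p q : ℕ) : Prop :=
  ∀ σ R, Rain S G i σ N R →
    (¬ ∀ k < N, p ≤ S.ρ (LL σ R k) ∧ S.ρ (LL σ R k) < q ∧ q ≤ S.ρ (RL σ R k)) ∧
    ¬ ∀ k < N, S.ρ (LL σ R k) < p ∧ p ≤ S.ρ (RL σ R k) ∧ S.ρ (RL σ R k) < q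

/-- the structure with the order of the stable class `i` reversed (`B` is larger than all `ρ`) -/
def rvI (S : X2.St V n) (i : Fin n) (B : ℕ) (hB : ∀ x, S.ρ x ≤ B) : X2.St V n where
  G := S.G
  c := S.c
  ρ x := if S.c x = i then B - S.ρ x else S.ρ x
  s j k := if j = i then !(S.s j k) else S.s j k
  t := S.t
  inj x y h h' := by
    refine S.inj x y h ?_
    have h1 := hB x
    have h2 := hB y
    by_cases hx : S.c x = i
    · rw [if_pos hx, if_pos (h ▸ hx)] at h'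
      omega
    · rw [if_neg hx, if_neg (h ▸ hx)] at h'
      exact h'
  typ := S.typ
  dn x x' y hc hlt hy hs ha := by
    have h1 := hB x
    have h2 := hB x'
    by_cases hx : S.c x = i
    · rw [if_pos hx, if_pos (hc ▸ hx)] at hlt
      rw [if_pos hx] at hs
      exact S.up x' x y hc.symm (by omega) (by rw [← hc]; exact hy) (by rw [← hc]; simpa using hs) ha
    · rw [if_neg hx, if_neg (hc ▸ hx)] at hlt
      rw [if_neg hx] at hs
      exact S.dn x x' y hc hlt hy hs ha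
  up x x' y hc hlt hy hs ha := by
    have h1 := hB x
    have h2 := hB x'
    by_cases hx : S.c x = i
    · rw [if_pos hx, if_pos (hc ▸ hx)] at hlt
      rw [if_pos hx] at hs
      exact S.dn x' x y hc.symm (by omega) (by rw [← hc]; exact hy) (by rw [← hc]; simpa using hs) ha
    · rw [if_neg hx, if_neg (hc ▸ hx)] at hlt
      rw [if_neg hx] at hs
      exact S.up x x' y hc hlt hy hs ha

end defs

/-! ### the finite tables (proved by helper23 from `CE/TabP, TabR, TabZ`) -/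

/-- **E1** (helper23).  One vertex and a rainbow. -/
def S_R1 : Prop := ∀ (V : Type) (G : SimpleGraph V), ¬ IMS (KA 3 3 ![{0}, {1}, {0, 2}]) G Set.univ →
  ¬ IMS (F9.JS ![0, 1, 1] 2) G Set.univ → ∀ (R : ℕ → ℕ → V) (z : V) (a : ℕ → Bool), DR G 16 R → HZ G 16 R z a →
  a 0 = false → a 4 = false → a 2 = false ∧ (a 1 = false → a 3 = false)

/-- **E2** (helper23).  A pair of mates and a rainbow. -/
def S_R5 : Prop := ∀ (V : Type) (G : SimpleGraph V), ¬ IMS (KA 3 3 ![{0}, {1}, {0, 2}]) G Set.univ →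
  ¬ IMS (F9.JS ![0, 1, 1] 2) G Set.univ → ∀ (R : ℕ → ℕ → V) (c₀ s₀ : V) (a a' : ℕ → Bool), DR G 16 R →
  HZ G 16 R c₀ a → HZ G 16 R s₀ a' → c₀ ≠ s₀ → ¬ G.Adj c₀ s₀ → a' 0 = false → a' 4 = false →
  ((a 0, a 4) = (true, true) → (a' 1, a' 3) ≠ cI) ∧ ((a 0, a 4) = (false, true) → (a' 1, a' 3) ≠ cB) ∧
    (a 0, a 4) ≠ (true, false)

/-- **E3** (helper23).  Two rainbows. -/
def S_Pt : Prop := ∀ (V : Type) (G : SimpleGraph V), ¬ IMS (KA 3 3 ![{0}, {1}, {0, 2}]) G Set.univ →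
  ¬ IMS (F9.JS ![0, 1, 1] 2) G Set.univ → ∀ (T Q : ℕ → ℕ → V) (K : ℕ → ℕ → Bool), DR G 16 T → DR G 16 Q →
  HP G 16 T Q K → K 0 0 = false → K 0 4 = false → K 4 0 = false → K 4 4 = false →
  ((K 1 0, K 3 0) = cA ∨ (K 1 0, K 3 0) = cI ∨ (K 1 0, K 3 0) = cB) ∧
  ((K 1 4, K 3 4) = cA ∨ (K 1 4, K 3 4) = cI ∨ (K 1 4, K 3 4) = cB) ∧
  ((K 0 1, K 0 3) = cA ∨ (K 0 1, K 0 3) = cI ∨ (K 0 1, K 0 3) = cB) ∧
  ((K 4 1, K 4 3) = cA ∨ (K 4 1, K 4 3) = cI ∨ (K 4 1, K 4 3) = cB) ∧
  pat K ≠ (cA, cI, cI, cB) ∧ pat K ≠ (cI, cB, cA, cI) ∧ pat K ≠ (cB, cA, cI, cI) ∧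
  pat K ≠ (cI, cI, cB, cA) ∧ pat K ≠ (cB, cI, cB, cI) ∧ pat K ≠ (cI, cA, cI, cA)

/-- **E4** (helper23).  Two rainbows and a vertex. -/
def S_Zt : Prop := ∀ (V : Type) (G : SimpleGraph V), ¬ IMS (KA 3 3 ![{0}, {1}, {0, 2}]) G Set.univ →
  ¬ IMS (F9.JS ![0, 1, 1] 2) G Set.univ → ∀ (T Q : ℕ → ℕ → V) (K : ℕ → ℕ → Bool) (z : V) (a a' : ℕ → Bool),
  DR G 16 T → DR G 16 Q → HP G 16 T Q K → K 0 0 = false → K 0 4 = false → K 4 0 = false → K 4 4 = false →
  HZ G 16 T z a → HZ G 16 Q z a' → a 0 = false → a 4 = false → a' 0 = false → a' 4 = false →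
  (pat K = (cI, cI, cA, cB) → ((a 1, a 3) = cA → (a' 1, a' 3) = cA) ∧ ((a 1, a 3) = cB → (a' 1, a' 3) = cB)) ∧
  (pat K = (cB, cB, cA, cA) → ¬ ((a 1, a 3) = cI ∧ (a' 1, a' 3) = cB) ∧ ¬ ((a 1, a 3) = cA ∧ (a' 1, a' 3) = cB) ∧
    ¬ ((a 1, a 3) = cA ∧ (a' 1, a' 3) = cI)) ∧
  (pat K = (cB, cB, cB, cB) → ¬ ((a 1, a 3) = cI ∧ (a' 1, a' 3) = cA) ∧ ¬ ((a 1, a 3) = cA ∧ (a' 1, a' 3) = cI)) ∧
  (pat K = (cA, cA, cA, cA) → ¬ ((a 1, a 3) = cI ∧ (a' 1, a' 3) = cB) ∧ ¬ ((a 1, a 3) = cB ∧ (a' 1, a' 3) = cI) ∧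
    ¬ ((a 1, a 3) = cB ∧ (a' 1, a' 3) = cB))

/-! ### order and selection -/

/-- **E5** (60 lines).  The order of the class `i` and the adjacency with the rails `1` and `3`.

Proof. Let `j = S.c (R 1 0)` (`= S.c (R 1 k)` by `cls`), `j ≠ i` as `t j = true`, `t i = false`.  `R 0 k` and `R 1 l` are not
exceptional (`exc`: an exceptional pair of rainbow vertices has the rails `1, 2`), so `S.G.Adj (R 0 k) (R 1 l)` iff
`k ≤ l` (`rb 0 1 = true`, `rb 1 0 = false`, `db 0 1 = true`).  Direction: `R 0 0` sees `R 1 0` and `R 0 1` does not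
(`2 ≤ m`), so `S.lt (S.s i j) (R 0 0) (R 0 1)` by `BT.lt_of_adj`; for `σ = true`, `ρ (R 0 1) < ρ (R 0 0)` (`dec`), for
`σ = false`, `ρ (R 0 0) < ρ (R 0 1)` (`inc`); so `S.s i j = !σ`.  If `x` sees `R 1 k` and `S.lt σ (R 0 (k + 1)) x` is false then
`S.le σ x (R 0 (k + 1))`, i.e. `S.le (!σ) (R 0 (k + 1)) x`, and by `S.see` `R 0 (k + 1)` sees `R 1 k`: contradiction.  If `x`
does not see `R 1 k` and not `S.lt σ x (R 0 k)` then `S.le σ (R 0 k) x`, `S.le (!σ) x (R 0 k)`, and `x` sees `R 1 k` by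
`S.see`: contradiction.
The same with `R 3` and `R 4`: `S.G.Adj (R 4 l) (R 3 k)` iff `k ≤ l` (`rb 3 4 = true`, `rb 4 3 = false`, `db 3 4 = true`).
Direction: `R 4 1` sees `R 3 1`, `R 4 0` does not: `S.lt (S.s i j') (R 4 1) (R 4 0)`, and `R 4 = RL` increases for
`σ = true`, `R 4 = LL` decreases for `σ = false`: `S.s i j' = !σ`.  If `x` sees `R 3 k`, `1 ≤ k`, then not
`S.le (!σ) (R 4 (k - 1)) x`.  If `x` does not see `R 3 k` then not `S.le (!σ) x (R 4 k)`.  (The first two parts of the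
conclusion are the directions.) -/
def S_Ord : Prop := ∀ (V : Type) (n : ℕ) (S : X2.St V n) (G : SimpleGraph V) (i : Fin n) (σ : Bool) (m : ℕ)
  (R : ℕ → ℕ → V), S.t i = false → Rain S G i σ m R → 2 ≤ m → ∀ k < m,
  S.s i (S.c (R 1 k)) = !σ ∧ S.s i (S.c (R 3 k)) = !σ ∧ ∀ x, S.c x = i →
  (S.G.Adj x (R 1 k) → k + 1 < m → S.lt σ (R 0 (k + 1)) x) ∧
  (¬ S.G.Adj x (R 1 k) → S.lt σ x (R 0 k)) ∧
  (S.G.Adj x (R 3 k) → 1 ≤ k → S.lt σ (R 4 (k - 1)) x) ∧
  (¬ S.G.Adj x (R 3 k) → S.lt σ x (R 4 k))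

/-- **E6** (90 lines).  Selection for one vertex and for two rainbows (uses `W.S_RamC` (`W.ramC`)).

Proof. One vertex.  We may assume `b + 2 ≤ m` (otherwise use the number for `b + 2` and the first `m` indices).  Colours:
`(Fin 5 → Bool) × (Fin 5 → Prop-valued flags as Bool)`: `χ k l` (only dependent on `l`) is the pair of `j ↦ decide (G.Adj z (R j l))`,
`j ↦ decide (Exc S G z (R j l) ∨ z = R j l)` (classical).  `W.ramC` for `m + 1` gives `s` and the colour `c` with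
`χ (s k) (s l) = c` for `k < l < m + 1`; `κ k = s (k + 1)` for `k < m`: the colour of `κ k` is `c` (pair `0, k + 1`).
If a flag is true for the rail `j` then for all `k < m` `z = R j (κ k)` or `Exc z (R j (κ k))`; the `R j (κ k)` are distinct
(`dis`), so at most one is equal to `z` and at most `b` are exceptional partners of `z` (`ex.deg`, `Set.ncard` of the finite
set, `V` finite): `m ≤ b + 1`, contradiction.  `a j = c.1 j`.
Two rainbows.  Again `b + 2 ≤ m`.  Colours: tables `Fin 5 × Fin 5 → Bool × Bool`: `χ k l (i, j)` is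
`(decide (G.Adj (T i k) (Q j l)), decide (Exc S G (T i k) (Q j l) ∨ T i k = Q j l))`.  `W.ramC` for `2 * m` gives `s`, `c`;
`κ k = s k`, `κ' l = s (m + l)` (for `k < m`, `l < m`: `k < m + l < 2 m`).  No flag is true: otherwise `T i (κ 0)` is
equal to or exceptional with all `Q j (κ' l)`, `l < m`, which are distinct: `m ≤ b + 1`.  `K i j = (c (i, j)).1`. -/
def S_Sl : Prop := ∀ b m : ℕ, ∃ M : ℕ, ∀ (V : Type) [Finite V] (n : ℕ) (S : X2.St V n) (G : SimpleGraph V)
  (i : Fin n), BT.ExcB S G b →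
  (∀ σ T z, Rain S G i σ M T → ∃ κ, Sel m M κ ∧ (∃ a, HZ G m (fun j k => T j (κ k)) z a) ∧
    Nx S G m (fun j k => T j (κ k)) z) ∧
  (∀ σ τ T Q, Rain S G i σ M T → Rain S G i τ M Q → ∃ κ κ', Sel m M κ ∧ Sel m M κ' ∧
    (∃ K, HP G m (fun j k => T j (κ k)) (fun j k => Q j (κ' k)) K) ∧
    ∀ j < 5, ∀ k < m, Nx S G m (fun j k => Q j (κ' k)) (T j (κ k)))

/-- **E7** (150 lines).  **Order form** of a homogeneous pair (uses E3, E5).  `dL σ`, `dR σ`: the code of a vertex to the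
left, to the right of a rainbow of sign `σ`.

Proof. Every leg `x = Q j l` (`j = 0, 4`) is in the class `i` and not exceptional with the vertices of `T` (`Nx` for the
vertex `T _ k`, `Exc.symm`), so `S.G.Adj x (T 1 k)` iff `K 1 j`, `S.G.Adj x (T 3 k)` iff `K 3 j` for all `k < m`.  By E5 for `T`:
code `A` (`K 1 j = false`): `S.lt σ x (T 0 k)` for all `k < m`.  Code `I` (`K 1 j = true`, `K 3 j = false`):
`S.lt σ (T 0 k) x` for `1 ≤ k < m`, `S.lt σ x (T 4 k)` for `k < m`.  Code `B`: `S.lt σ (T 4 k) x` for `k + 1 < m`.  In positions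
(index `k` with `1 ≤ k`, `k + 1 < m`; `σ = true`: `LL = 0`, `RL = 4`, `S.lt true` is `<`; `σ = false`: `LL = 4`, `RL = 0`,
`S.lt false` is `>`): `A` is left for `σ = true` and right for `σ = false`, `B` is right for `σ = true` and left for
`σ = false`, `I` is inside: `ρ (LL σ T k) < ρ x < ρ (RL σ T k)`.  In the same way for the legs `T j k` seen by `Q` (`K 0 j`,
`K 4 j`).  Fix `k, l` with `1 ≤ k, l`, `k + 1, l + 1 < m`, let `l₁ < r₁` be the `ρ` of the legs of `T` at `k`, `l₂ < r₂` the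
`ρ` of those of `Q` at `l`.  The order of the four numbers determines the codes and conversely (the codes `A, I, B` of
`(K 1 j, K 3 j)` by E3): the four numbers are distinct (every code gives strict inequalities); the six orders are
`T < Q`, `Q < T`, `T ⊃ Q`, `Q ⊃ T`, and the two crossings.
`+ +` crossing `l₁ < l₂ < r₁ < r₂`: pattern `(I, B, A, I)`; crossing `l₂ < l₁ < r₂ < r₁`: `(A, I, I, B)`.
`- -`: `l₁ < l₂ < r₁ < r₂`: `(A, I, I, B)`; the other one `(I, B, A, I)`.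
`+ -`: `l₁ < l₂ < r₁ < r₂`: `(B, I, B, I)`; the other one `(I, A, I, A)`.  `- +`: `(I, A, I, A)` and `(B, I, B, I)`.
All excluded by E3.  `T ⊃ Q`: `+ +`, `- -`: `(I, I, A, B)`; `+ -`, `- +`: `(I, I, B, A)`, excluded.  `Q ⊃ T`: `+ +`, `- -`:
`(A, B, I, I)`; `+ -`, `- +`: `(B, A, I, I)`, excluded.  `T < Q`: `(dR σ, dR σ, dL τ, dL τ)`.  `Q < T`:
`(dL σ, dL σ, dR τ, dR τ)`.  Since the pattern does not depend on `k, l`, the alternative is the same for all `k, l`
(the patterns of the four alternatives are different for given signs, except that for `σ ≠ τ` the pattern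
`(dR σ, dR σ, dL τ, dL τ)` is `BBBB` for `+ -` and `AAAA` for `- +`, and `(dL σ, dL σ, dR τ, dR τ)` is `AAAA` for `+ -` and
`BBBB` for `- +`: different as well).  In Lean: prove the statement for one pair `k, l` (suffices: the statement below has
`k, l` before the alternatives). -/
def S_Or : Prop := ∀ (V : Type) (n : ℕ) (S : X2.St V n) (G : SimpleGraph V) (i : Fin n) (b : ℕ), Cx S G i b →
  ∀ (σ τ : Bool) (m : ℕ) (T Q : ℕ → ℕ → V) (K : ℕ → ℕ → Bool), 16 ≤ m → Rain S G i σ m T → Rain S G i τ m Q →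
  HP G m T Q K → (∀ j < 5, ∀ k < m, Nx S G m Q (T j k)) →
  ∀ k l, 1 ≤ k → k + 1 < m → 1 ≤ l → l + 1 < m →
  (S.ρ (LL σ T k) < S.ρ (LL τ Q l) ∧ S.ρ (RL τ Q l) < S.ρ (RL σ T k) ∧ σ = τ ∧ pat K = (cI, cI, cA, cB)) ∨
  (S.ρ (LL τ Q l) < S.ρ (LL σ T k) ∧ S.ρ (RL σ T k) < S.ρ (RL τ Q l) ∧ σ = τ ∧ pat K = (cA, cB, cI, cI)) ∨
  (S.ρ (RL σ T k) < S.ρ (LL τ Q l) ∧
    pat K = (bif σ then cB else cA, bif σ then cB else cA, bif τ then cA else cB, bif τ then cA else cB)) ∨
  (S.ρ (RL τ Q l) < S.ρ (LL σ T k) ∧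
    pat K = (bif σ then cA else cB, bif σ then cA else cB, bif τ then cB else cA, bif τ then cB else cA))

/-- **E8** (130 lines).  **Two rainbows and a vertex** (uses E1, E3, E4, E6, E7).

Proof. The number is that of E6 for `b, 16`.  E6 (second part) gives `κ, κ', K`; `T', Q'` the subrainbows (`Rain.sub`), of
size `16`.  E7 for `k = l = 1` gives one of four alternatives for the indices `κ 1, κ' 1`; these are the indices of the
conclusion.  `HZ` of `z` with `T'`, `Q'` by `HZ.sub`; the tables `a, a'` are those of `Sees`.  `a 0 = a 4 = false`: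
`z` has no neighbours in the class `i` (`An`, `cu`, `ct`).  `K 0 0 = false` etc.: the legs are in the stable class `i`
(`X2.St.typ`, not exceptional by `ExcB.typ`, or by `Nx`).  By E1 the codes `(a 1, a 3)`,
`(a' 1, a' 3)` are among `A, I, B`: `a 1 = false → a 3 = false`.  So with `P = posZ σ a`: for `σ = true`: `P = L` iff code `A`,
`P = I` iff code `I`, `P = R` iff code `B`; for `σ = false`: `P = R` iff `A`, `P = I` iff `I`, `P = L` iff `B`.
(1) `T ⊃ Q`, `σ = τ`, pattern `(I, I, A, B)`: by E4, `a` code `A` implies `a'` code `A`, `B` implies `B`: this is `NN P P'` for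
both signs.
(2) `Q ⊃ T`: E4 for `Q', T'` (`HP.swap`; the pattern of the swapped table is `(I, I, A, B)`): `NN P' P`.
(3) `T < Q`: `+ +`: pattern `(B, B, A, A)`: E4: not `(I, B)`, `(A, B)`, `(A, I)`, in positions: not `(I, R)`, `(L, R)`,
`(L, I)`: `ND`.  `+ -`: `(B, B, B, B)`: not `(I, A)`, `(A, I)`: not `(I, R)`, `(L, I)`: `ND true false` (the third part is
trivial).  `- +`: `(A, A, A, A)`: not `(I, B)`, `(B, I)`, `(B, B)`: not `(I, R)`, `(L, I)`, `(L, R)`.
`- -`: `(A, A, B, B)`: the swapped table has the pattern `(B, B, A, A)`: for `(a', a)` not `(I, B)`, `(A, B)`, `(A, I)`, in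
positions `(P', P)` not `(I, L)`, `(R, L)`, `(R, I)`, so `(P, P')` not `(L, I)`, `(L, R)`, `(I, R)`.
(4) `Q < T`: the same with `Q, T` exchanged. -/
def S_Two : Prop := ∀ b : ℕ, ∃ K : ℕ, ∀ (V : Type) [Finite V] (n : ℕ) (S : X2.St V n) (G : SimpleGraph V)
  (i : Fin n), Cx S G i b → ∀ (σ τ : Bool) (T Q : ℕ → ℕ → V) (z : V) (P P' : Pos), Rain S G i σ K T →
  Rain S G i τ K Q → An S G i z → Sees G σ K T z P → Sees G τ K Q z P' →
  ∃ k < K, ∃ l < K, Alt σ τ P P' (S.ρ (LL σ T k)) (S.ρ (RL σ T k)) (S.ρ (LL τ Q l)) (S.ρ (RL τ Q l))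

/-- **E9** (100 lines).  **The sandwich** (uses E1, E6).

Proof. `M` the maximum of `16` and the number of E6 for `b, 16`.  Let `z = R 2 M`, `x` in the class `i`, `x ≠ z` (`G` is
loopless).  The inner part: `R j k`, `k < M`, the outer part: `R j (M + 1 + k)`, `k < M` (`Rain.sub`).  E6 (first part)
for the vertex `x` and both parts: subrainbows `T₁, T₂` of size `16` with tables `a, a'` and without exceptional pairs
with `x`; `a 0 = a 4 = false` as `x` and the legs are in the stable class `i` (not exceptional).  E1: `a 2 = a' 2 = false`.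
So there are `k < M < l` such that `x` is not adjacent to `R 2 k` and `R 2 l`, in `G` and in `S.G` (`ts`: both stable, so not
exceptional by `ExcB.typ`).  Suppose `G.Adj z x`; then `S.G.Adj z x` (both stable).  If `S.c z = i`: two different
vertices of the stable class `i` are not adjacent (`S.typ`): contradiction.  Otherwise: `R 3 M` sees `R 2 M` and not `R 2 k`
(`rb 2 3 = false`, `db 2 3 = true`), `R 3 l` sees `R 2 l` and not `R 2 M`, in `S.G` as well (`exc`).  `R 3 M`, `R 3 l` are in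
one class `j'`, `j' ≠ j = S.c z` (`t j' = true`).  `BT.lt_of_adj`: with `e = S.s j j'`: `S.lt e z (R 2 k)` and
`S.lt e (R 2 l) z`.  So `z` is between `R 2 l` and `R 2 k` in the class `j`.  Now `e' = S.s j i`; if `e' = e` then `S.see`
(`S.le e' (R 2 l) z`, `z` sees `x`): `R 2 l` sees `x`; if `e' = !e`: `S.le e' (R 2 k) z`, so `R 2 k` sees `x`: contradiction.
(`S.see` needs `S.c x ≠ S.c z`: yes, `S.c x = i ≠ j`.) -/
def S_Snd : Prop := ∀ b : ℕ, ∃ M₀ : ℕ, ∀ (V : Type) [Finite V] (n : ℕ) (S : X2.St V n) (G : SimpleGraph V)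
  (i : Fin n), Cx S G i b → ∀ (σ : Bool) (M : ℕ) (R : ℕ → ℕ → V), M₀ ≤ M → Rain S G i σ (2 * M + 1) R →
  An S G i (R 2 M)

/-! ### the claims -/

/-- **E10** (100 lines).  **Claim A** (uses E6, E8).  `K` is the number of E8 for `b`.

Proof. Let `K` be the number of E8; `m' = max m (2 K + 1)`, `N = max` of the number of E6 for `b, m'` and `1`.  (In the
statement `K` is given, with the conclusion of E8 as the hypothesis `hK`.)  E6 gives a subrainbow `T'` of `T` of size `m'`,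
homogeneous to `z`: it sees `z` at `P = posZ τ a`.  If `P = I`: the first `m` indices are the conclusion (`HZ.sub`).
If `P = L`: the first `2 K + 1` indices of `T'` are a rainbow `T''` which sees `z` at `L`, so `Qz (ρ (LL τ T'' K))`, and
`q ≤ ρ (LL τ T'' K) < q`: contradiction.  If `P = R`: let `U` (sign `σ`, size `2 K + 1`) attain `q`, `T₁` the first `K` indices
of `T'`.
(a) `U` sees `z` at `L`, `q = ρ (LL σ U K)`: `U₂ = U` at the indices `K + 1 + l`, `l < K`; `ρ (LL σ U₂ l) < q < ρ (RL σ U₂ l')`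
(`dec`; `bet`: `q = ρ (LL σ U K) < ρ (RL σ U _)`).  `hK` for `T₁, U₂` (positions `R`, `L`): (1) `NN R L` is false, (2) `NN L R` is
false; (3) `ρ (RL τ T₁ k) < ρ (LL σ U₂ l) < q ≤ ρ (RL τ T₁ k)`: false; (4) `ρ (RL σ U₂ l) < ρ (LL τ T₁ k) < q`: false.
(b) `U` sees `z` at `I`, `q = ρ (RL σ U K)`: `U₁ = U` at the indices `l < K`; `ρ (RL σ U₁ l) < q` (`inc`).  `hK` for `T₁, U₁`
(positions `R`, `I`): (1) `NN R I` is false; (2) `ρ (RL τ T₁ k) < ρ (RL σ U₁ l) < q ≤ ρ (RL τ T₁ k)`; (3)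
`ρ (RL τ T₁ k) < ρ (LL σ U₁ l) < ρ (RL σ U₁ l) < q` (`bet`); (4) `ND σ τ I R` is false. -/
def S_ClA : Prop := ∀ b K m : ℕ, ∃ N : ℕ, ∀ (V : Type) [Finite V] (n : ℕ) (S : X2.St V n) (G : SimpleGraph V)
  (i : Fin n), Cx S G i b →
  (∀ (σ τ : Bool) (T Q : ℕ → ℕ → V) (z : V) (P P' : Pos), Rain S G i σ K T →
    Rain S G i τ K Q → An S G i z → Sees G σ K T z P → Sees G τ K Q z P' →
    ∃ k < K, ∃ l < K, Alt σ τ P P' (S.ρ (LL σ T k)) (S.ρ (RL σ T k)) (S.ρ (LL τ Q l)) (S.ρ (RL τ Q l))) →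
  ∀ (z : V) (q : ℕ), An S G i z → Qz S G i K z q → (∀ q', Qz S G i K z q' → q ≤ q') →
  ∀ (τ : Bool) (T : ℕ → ℕ → V), Rain S G i τ N T →
  (∀ k < N, S.ρ (LL τ T k) < q ∧ q ≤ S.ρ (RL τ T k)) →
  ∃ κ, Sel m N κ ∧ Sees G τ m (fun j k => T j (κ k)) z Pos.I

/-- **E11** (100 lines).  **Claim B** (uses the conclusion of E8 as in E10).

Proof. Inner part of `R`: the indices `k < M`: `z = R 2 M` is adjacent to `R 1 k` (`rb 1 2`) and to `R 3 k` (`rb 3 2`) and not to
`R 0 k`, `R 2 k`, `R 4 k`: it sees `z` at `R` (`σ = true`).  Outer part: the indices `M + 1 + k`: `z` is adjacent to `R 1 l`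
(`rb 2 1`) and not to the other rails: it sees `z` at `I`.
First statement: `2 K + 1 ≤ M`, the indices `M + 1 + k`, `k < 2 K + 1`, give `Qz (ρ (RL (M + 1 + K)))`, and
`ρ (RL (M + 1 + K)) ≤ ρ (RL (2 M))`.
Second statement: suppose `q ≤ ρ (RL true R 0)`; let `U` (sign `τ`) show `Qz q`, and `T = R` at the indices `k < K`
(`K ≤ M`), it sees `z` at `R`; `q ≤ ρ (RL true T k)` for all `k`.
(a) `U` sees `z` at `L`, `q = ρ (LL τ U K)`, `U₂` the indices `K + 1 + l`: `ρ (LL τ U₂ l) < q`.  `hK` for `T, U₂` (`R`, `L`): (1), (2):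
`NN R L`, `NN L R` are false; (3) `ρ (RL T k) < ρ (LL U₂ l) < q ≤ ρ (RL T k)`; (4) `ND τ true L R` says `true = false`.
(b) `U` sees `z` at `I`, `q = ρ (RL τ U K)`, `U₁` the indices `l < K`: `ρ (RL τ U₁ l) < q`.  `hK` for `T, U₁` (`R`, `I`): (1) `NN R I` is
false; (2) `ρ (RL T k) < ρ (RL U₁ l) < q`; (3) `ρ (RL T k) < ρ (LL U₁ l) < ρ (RL U₁ l) < q`; (4) `ND τ true I R` is
false. -/
def S_ClB : Prop := ∀ b K : ℕ, ∀ (V : Type) [Finite V] (n : ℕ) (S : X2.St V n) (G : SimpleGraph V)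
  (i : Fin n), Cx S G i b →
  (∀ (σ τ : Bool) (T Q : ℕ → ℕ → V) (z : V) (P P' : Pos), Rain S G i σ K T →
    Rain S G i τ K Q → An S G i z → Sees G σ K T z P → Sees G τ K Q z P' →
    ∃ k < K, ∃ l < K, Alt σ τ P P' (S.ρ (LL σ T k)) (S.ρ (RL σ T k)) (S.ρ (LL τ Q l)) (S.ρ (RL τ Q l))) →
  ∀ (M : ℕ) (R : ℕ → ℕ → V), 2 * K + 1 ≤ M → Rain S G i true (2 * M + 1) R → An S G i (R 2 M) →
  (∃ q, Qz S G i K (R 2 M) q ∧ q ≤ S.ρ (RL true R (2 * M))) ∧
  ∀ q, Qz S G i K (R 2 M) q → S.ρ (RL true R 0) < q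

/-- **E12** (130 lines).  **Claim C, good intervals of positive rainbows** (uses E2, E5, E6, E8 - E11, E1).

Proof. `K` the number of E8; `M₁ = max M₀ (2 K + 1)` (`M₀` of E9), `M = 2 M₁ + 1`; `m = max (2 K + 1) ` (number of E6 for
`b, 16`); `N` the maximum of the number of E10 for `b, K, m` and of the number `N'` of E6 for `b, m` (and `1`); a
rainbow of a larger size contains one of the size we need (`Rain.sub`, `κ = id`).  Let `R` be the rainbow of size
`2 M₁ + 1`, `c = R 1 M₁`, `z = R 2 M₁`; `An z` by E9.  `q` = the smallest number with `Qz q` (exists by E11, `Nat.find`); E11: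
`ρ (RL R 0) < q ≤ ρ (RL R (2 M₁))`.  `p` = the smallest number of the form `ρ x`, `x` in the class `i`, `S.G.Adj x c`
(`Nat.find`; `R 0 M₁` is such an `x`: `rb`, `db 0 1 = true`, not exceptional); so `p ≤ ρ (R 0 M₁) < ρ (R 0 0)` (`dec`; `1 ≤ M₁`);
and by E5 `ρ (R 0 (M₁ + 1)) < ρ x` for all such `x`, so `ρ (LL R (2 M₁)) ≤ ρ (R 0 (M₁ + 1)) < p`.  For `x` in the class
`i`: `S.G.Adj x c` iff `p ≤ ρ x` (by E5 `S.s i (S.c c) = false`, so `S.up`: if `p = ρ x₀`, `x₀` sees `c` and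
`ρ x₀ < ρ x` then `x` sees `c`).
`GdR N p q`.  Let `T` be a rainbow of sign `τ`.
(i) all left legs `≥ p` and `< q`, all right legs `≥ q`.  E10: `κ` with `m` indices, `T ∘ κ` sees `z` at `I`.  E6 for the
vertex `c` and `T ∘ κ` (size = number of E6 for `b, 16`; take the first indices): `T'` of size `16`, homogeneous to `c` without
exceptional pairs with `c`; all legs of `T'` see `c` (`p ≤ ρ`), so the table `a` of `c` has `a 0 = a 4 = true`; the
table `a'` of `z` has the code `I` (`posZ τ a' = I` means `a' 1 = true`, `a' 3 = false`), `a' 0 = a' 4 = false` by `An`.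
`c ≠ z` (`dis`), `c, z` are not adjacent in `G` (`db 1 2 = false`).  E2: contradiction.
(ii) all left legs `< p`, all right legs `≥ p` and `< q`.  E6 for `z`: `T₁` of size `m`, homogeneous to `z`; E6 for `c`: `T'`
of size `16` as above.  The table `a` of `c`: left legs do not see `c`, right legs do: for `τ = true`
`(a 0, a 4) = (false, true)`, for `τ = false` `(a 0, a 4) = (true, false)`: impossible by E2.  So `τ = true`, and by E2 the
code of `a'` is not `B`, by E1 it is `A` or `I`; so `T₁` sees `z` at `L` or `I` (the table of `T'` is that of `T₁`), and so do its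
first `2 K + 1` indices `T₂`.  `L`: `Qz (ρ (LL T₂ K))`, `q ≤ ρ (LL T₂ K) < p ≤ ρ (RL T₂ K) < q`.  `I`: `Qz (ρ (RL T₂ K))`,
`q ≤ ρ (RL T₂ K) < q`.  Contradictions. -/
def S_GoodP : Prop := ∀ b : ℕ, ∃ N M : ℕ, 1 ≤ M ∧ ∀ (V : Type) [Finite V] (n : ℕ) (S : X2.St V n) (G : SimpleGraph V)
  (i : Fin n), Cx S G i b → ∀ (R : ℕ → ℕ → V), Rain S G i true M R → ∃ p q,
  S.ρ (LL true R (M - 1)) < p ∧ p ≤ S.ρ (LL true R 0) ∧ S.ρ (RL true R 0) < q ∧ q ≤ S.ρ (RL true R (M - 1)) ∧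
  GdR S G i N p q

/-- **E13** (100 lines).  **Good intervals** (uses E12).

Proof. `σ = true`: E12.  `σ = false`: let `B` be larger than all `ρ x` (`V` finite), `S' = rvI S i B _`.  `S'.G = S.G`,
`S'.c = S.c`, `S'.t = S.t`, so `Exc` is the same and `Cx S' G i b` (`sgn`: `S.t j = true` implies `j ≠ i`).  For `x` in the class
`i`: `S'.ρ x = B - S.ρ x`.  A rainbow of `S` of sign `σ` is a rainbow of `S'` of sign `!σ`, and conversely, with
`LL (!σ) = RL σ`, `RL (!σ) = LL σ` (both are `rfl` after cases on `σ`; `dec` and `inc` exchange, `bet`).  E12 for `S'` gives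
`p', q'`; by the bounds `p', q' ≤ B`; `p = B + 1 - q'`, `q = B + 1 - p'`.  For `x` in the class `i`: `p ≤ ρ x` iff
`S'.ρ x < q'`, and `ρ x < q` iff `p' ≤ S'.ρ x`.  The conclusions follow (`omega`). -/
def S_Good : Prop := ∀ b : ℕ, ∃ N M : ℕ, 1 ≤ M ∧ ∀ (V : Type) [Finite V] (n : ℕ) (S : X2.St V n) (G : SimpleGraph V)
  (i : Fin n), Cx S G i b → ∀ (σ : Bool) (R : ℕ → ℕ → V), Rain S G i σ M R → ∃ p q,
  S.ρ (LL σ R (M - 1)) < p ∧ p ≤ S.ρ (LL σ R 0) ∧ S.ρ (RL σ R 0) < q ∧ q ≤ S.ρ (RL σ R (M - 1)) ∧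
  GdR S G i N p q

end Pool.Agent.MPd439b2.CE
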