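import Pool.Agent.Lib.MP_d439b2_co.CE.Spec

/-!
# MP_d439b2_co, CE: Claim B (E11)
-/

set_option autoImplicit false

namespace Pool.Agent.MPd439b2.CE

open Pool.Agent.MPd439b2

theorem clB : S_ClB := by
  intro b K V _ n S G i _ hK M R hM hR hz
  have hm : (2 : ℕ) < 5 := by norm_num
  have hMM : M < 2 * M + 1 := by omega
  constructor
  · have hU : Rain S G i true (2 * K + 1) (fun j k => R j (M + 1 + k)) :=
      hR.sub (κ := fun k => M + 1 + k) (fun k hk => by show M + 1 + k < 2 * M + 1; omega)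
        (fun k l hkl _ => by show M + 1 + k < M + 1 + l; omega)
    have hS : Sees G true (2 * K + 1) (fun j k => R j (M + 1 + k)) (R 2 M) Pos.I :=
      ⟨fun j => rb 2 j,
        ⟨fun j hj k hk => hR.dis 2 hm j hj M hMM (M + 1 + k) (by omega) (Or.inr (by omega)),
          fun j hj k hk => hR.rel 2 hm j hj M (M + 1 + k) (by omega) (by omega)⟩, rfl⟩
    refine ⟨S.ρ (RL true R (M + 1 + K)), ⟨true, _, hU, Or.inr ⟨hS, rfl⟩⟩, ?_⟩
    rcases Nat.lt_or_ge (M + 1 + K) (2 * M) with h | h
    · exact (hR.inc _ _ h (by omega)).le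
    · have h2 : M + 1 + K = 2 * M := by omega
      rw [h2]
  · rintro q ⟨τ, U, hU, hq⟩
    by_contra hlt
    have hle : q ≤ S.ρ (RL true R 0) := not_lt.mp hlt
    have hT : Rain S G i true K (fun j k => R j k) :=
      hR.sub (κ := fun k => k) (fun k hk => by show k < 2 * M + 1; omega) (fun k l hkl _ => hkl)
    have hTS : Sees G true K (fun j k => R j k) (R 2 M) Pos.R :=
      ⟨fun j => rb j 2,
        ⟨fun j hj k hk => hR.dis 2 hm j hj M hMM k (by omega) (Or.inr (by omega)),
          fun j hj k hk => by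
            rw [SimpleGraph.adj_comm]
            exact hR.rel j hj 2 hm k M (by omega) hMM⟩, rfl⟩
    have hRk : ∀ k, k < K → q ≤ S.ρ (RL true R k) := by
      intro k hk
      rcases Nat.eq_zero_or_pos k with h0 | h0
      · rw [h0]; exact hle
      · exact hle.trans (hR.inc 0 k h0 (by omega)).le
    rcases hq with ⟨hs, hq⟩ | ⟨hs, hq⟩
    · obtain ⟨a, ha, hpa⟩ := hs
      have hU2 : Rain S G i τ K (fun j k => U j (K + 1 + k)) :=
        hU.sub (κ := fun k => K + 1 + k) (fun k hk => by show K + 1 + k < 2 * K + 1; omega)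
          (fun k l hkl _ => by show K + 1 + k < K + 1 + l; omega)
      have hS2 : Sees G τ K (fun j k => U j (K + 1 + k)) (R 2 M) Pos.L :=
        ⟨a, ha.sub (κ := fun k => K + 1 + k) (fun k hk => by show K + 1 + k < 2 * K + 1; omega), hpa⟩
      obtain ⟨k, hk, l, hl, hA⟩ := hK true τ _ _ (R 2 M) Pos.R Pos.L hT hU2 hz hTS hS2
      have h1 : S.ρ (LL τ (fun j k => U j (K + 1 + k)) l) < q := by
        rw [hq]
        exact hU.dec K (K + 1 + l) (by omega) (by omega)
      have h2 : q ≤ S.ρ (RL true (fun j k => R j k) k) := hRk k hk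
      rcases hA with ⟨_, _, h3⟩ | ⟨_, _, h3⟩ | ⟨h3, _⟩ | ⟨_, h3⟩
      · exact absurd (h3.1 rfl) (by decide)
      · exact absurd (h3.2 rfl) (by decide)
      · exact absurd (h3.trans h1) (not_lt.mpr h2)
      · exact absurd (h3.2.2 rfl rfl).2 (by decide)
    · obtain ⟨a, ha, hpa⟩ := hs
      have hU1 : Rain S G i τ K (fun j k => U j k) :=
        hU.sub (κ := fun k => k) (fun k hk => by show k < 2 * K + 1; omega) (fun k l hkl _ => hkl)
      have hS1 : Sees G τ K (fun j k => U j k) (R 2 M) Pos.I :=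
        ⟨a, ha.sub (κ := fun k => k) (fun k hk => by show k < 2 * K + 1; omega), hpa⟩
      obtain ⟨k, hk, l, hl, hA⟩ := hK true τ _ _ (R 2 M) Pos.R Pos.I hT hU1 hz hTS hS1
      have h1 : S.ρ (RL τ (fun j k => U j k) l) < q := by
        rw [hq]
        exact hU.inc l K (by omega) (by omega)
      have h2 : q ≤ S.ρ (RL true (fun j k => R j k) k) := hRk k hk
      rcases hA with ⟨_, _, h3⟩ | ⟨_, h3, _⟩ | ⟨h3, _⟩ | ⟨_, h3⟩
      · exact absurd (h3.1 rfl) (by decide)
      · exact absurd (h3.trans h1) (not_lt.mpr h2)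
      · have h4 : S.ρ (LL τ (fun j k => U j k) l) < S.ρ (RL τ (fun j k => U j k) l) :=
          hU.bet l (by omega) l (by omega)
        exact absurd ((h3.trans h4).trans h1) (not_lt.mpr h2)
      · exact absurd ⟨rfl, rfl⟩ h3.1

end Pool.Agent.MPd439b2.CE
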