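import Pool.Agent.Lib.MP_d439b2_co.BT.Defs
import Pool.Agent.Lib.MP_d439b2_co.FV.Tgt

/-!
# MP_d439b2_co, CE: the clean end of the argument for `K3:0,1,02` and `J_2`, definitions (helper23, note 3162)

The base is a STABLE class `i` of the staircase structure `S`.  The only closed bundles are the rainbows
`u - c = s - w - t` (rails `0, 1, 2, 3, 4`).  `D` is the complement of `G`; in `D` the vertex `c k` of a rainbow of
sign `true` sees exactly the vertices of the class `i` to the left of `u k`, the vertex `w k` sees those to the left of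
`t k`.
-/

set_option autoImplicit false

namespace Pool.Agent.MPd439b2.CE

open Pool.Agent.MPd439b2

variable {V : Type} {n : ℕ}

/-! ### the adjacency tables of a rainbow -/

/-- adjacency of `R i k` and `R j l` for `k < l` (rails `0 = u`, `1 = c`, `2 = s`, `3 = w`, `4 = t`) -/
def rb : ℕ → ℕ → Bool
  | 0, 1 => true
  | 1, 1 => true
  | 1, 2 => true
  | 2, 1 => true
  | 1, 3 => true
  | 3, 1 => true
  | 1, 4 => true
  | 4, 1 => true
  | 3, 2 => true
  | 3, 4 => true
  | 3, 3 => true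
  | _, _ => false

/-- adjacency of `R i k` and `R j k` for `i < j` -/
def db : ℕ → ℕ → Bool
  | 0, 1 => true
  | 1, 3 => true
  | 1, 4 => true
  | 2, 3 => true
  | 3, 4 => true
  | _, _ => false

/-- **The graph of a rainbow** with `m` indices (outward increasing): rails `u, c, s, w, t`; `u, s, t` stable and
anticomplete to each other; `c, w` cliques, complete to each other; `c k ~ s l` iff `k ≠ l`; `u k ~ c l` iff `k ≤ l`;
`s k ~ w l` iff `l ≤ k`; `w k ~ t l` iff `k ≤ l`; `c, t` complete; `u, w` anticomplete -/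
structure DR (G : SimpleGraph V) (m : ℕ) (R : ℕ → ℕ → V) : Prop where
  dis : ∀ i < 5, ∀ j < 5, ∀ k < m, ∀ l < m, (i ≠ j ∨ k ≠ l) → R i k ≠ R j l
  rel : ∀ i < 5, ∀ j < 5, ∀ k l, k < l → l < m → (G.Adj (R i k) (R j l) ↔ rb i j = true)
  dg : ∀ i < 5, ∀ j < 5, i < j → ∀ k < m, (G.Adj (R i k) (R j k) ↔ db i j = true)

/-- **Homogeneous pair** of rainbows: `R i k ~ Q j l` iff `K i j` -/
structure HP (G : SimpleGraph V) (m : ℕ) (R Q : ℕ → ℕ → V) (K : ℕ → ℕ → Bool) : Prop where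
  dis : ∀ i < 5, ∀ j < 5, ∀ k < m, ∀ l < m, R i k ≠ Q j l
  rel : ∀ i < 5, ∀ j < 5, ∀ k < m, ∀ l < m, (G.Adj (R i k) (Q j l) ↔ K i j = true)

/-- **A vertex `z`, homogeneous to a rainbow**: `z ~ R i k` iff `a i` -/
structure HZ (G : SimpleGraph V) (m : ℕ) (R : ℕ → ℕ → V) (z : V) (a : ℕ → Bool) : Prop where
  dis : ∀ i < 5, ∀ k < m, z ≠ R i k
  rel : ∀ i < 5, ∀ k < m, (G.Adj z (R i k) ↔ a i = true)

/-- the first `m'` indices of a subsequence -/
theorem DR.sub {G : SimpleGraph V} {m m' : ℕ} {R : ℕ → ℕ → V} (h : DR G m R) {κ : ℕ → ℕ}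
    (h1 : ∀ k < m', κ k < m) (h2 : ∀ k l, k < l → l < m' → κ k < κ l) :
    DR G m' (fun i k => R i (κ k)) :=
  ⟨fun i hi j hj k hk l hl hkl => h.dis i hi j hj _ (h1 k hk) _ (h1 l hl) (hkl.imp_right fun hne => by
      rcases lt_or_gt_of_ne hne with h3 | h3
      · exact (h2 k l h3 hl).ne
      · exact (h2 l k h3 hk).ne'),
    fun i hi j hj k l hkl hl => h.rel i hi j hj _ _ (h2 k l hkl hl) (h1 l hl),
    fun i hi j hj hij k hk => h.dg i hi j hj hij _ (h1 k hk)⟩

theorem HP.sub {G : SimpleGraph V} {m m' : ℕ} {R Q : ℕ → ℕ → V} {K : ℕ → ℕ → Bool} (h : HP G m R Q K)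
    {κ κ' : ℕ → ℕ} (h1 : ∀ k < m', κ k < m) (h2 : ∀ k < m', κ' k < m) :
    HP G m' (fun i k => R i (κ k)) (fun i k => Q i (κ' k)) K :=
  ⟨fun i hi j hj k hk l hl => h.dis i hi j hj _ (h1 k hk) _ (h2 l hl),
    fun i hi j hj k hk l hl => h.rel i hi j hj _ (h1 k hk) _ (h2 l hl)⟩

theorem HP.swap {G : SimpleGraph V} {m : ℕ} {R Q : ℕ → ℕ → V} {K : ℕ → ℕ → Bool} (h : HP G m R Q K) :
    HP G m Q R (fun i j => K j i) :=
  ⟨fun i hi j hj k hk l hl => (h.dis j hj i hi l hl k hk).symm,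
    fun i hi j hj k hk l hl => by rw [SimpleGraph.adj_comm]; exact h.rel j hj i hi l hl k hk⟩

theorem HZ.sub {G : SimpleGraph V} {m m' : ℕ} {R : ℕ → ℕ → V} {z : V} {a : ℕ → Bool} (h : HZ G m R z a)
    {κ : ℕ → ℕ} (h1 : ∀ k < m', κ k < m) : HZ G m' (fun i k => R i (κ k)) z a :=
  ⟨fun i hi k hk => h.dis i hi _ (h1 k hk), fun i hi k hk => h.rel i hi _ (h1 k hk)⟩

/-! ### rainbows of the staircase structure -/

/-- the left legs of a rainbow of sign `σ` -/
def LL (σ : Bool) (R : ℕ → ℕ → V) (k : ℕ) : V := bif σ then R 0 k else R 4 k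

/-- the right legs of a rainbow of sign `σ` -/
def RL (σ : Bool) (R : ℕ → ℕ → V) (k : ℕ) : V := bif σ then R 4 k else R 0 k

/-- **Rainbow of the staircase structure** `S`, of sign `σ`, with `m` indices, its legs `R 0 k`, `R 4 k` are in the
class `i`; every rail is in one class; the only exceptional pairs are the mates `R 1 k`, `R 2 k`; the left legs
decrease, the right legs increase -/
structure Rain (S : X2.St V n) (G : SimpleGraph V) (i : Fin n) (σ : Bool) (m : ℕ) (R : ℕ → ℕ → V) : Prop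
    extends DR G m R where
  cu : ∀ k < m, S.c (R 0 k) = i
  ct : ∀ k < m, S.c (R 4 k) = i
  cls : ∀ j < 5, ∀ k < m, ∀ l < m, S.c (R j k) = S.c (R j l)
  tc : ∀ k < m, S.t (S.c (R 1 k)) = true
  ts : ∀ k < m, S.t (S.c (R 2 k)) = false
  tw : ∀ k < m, S.t (S.c (R 3 k)) = true
  mate : ∀ k < m, BT.Exc S G (R 1 k) (R 2 k)
  exc : ∀ j < 5, ∀ j' < 5, ∀ k < m, ∀ l < m, BT.Exc S G (R j k) (R j' l) →
    k = l ∧ (j = 1 ∧ j' = 2 ∨ j = 2 ∧ j' = 1)
  dec : ∀ k l, k < l → l < m → S.ρ (LL σ R l) < S.ρ (LL σ R k)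
  inc : ∀ k l, k < l → l < m → S.ρ (RL σ R k) < S.ρ (RL σ R l)
  bet : ∀ k < m, ∀ l < m, S.ρ (LL σ R k) < S.ρ (RL σ R l)

theorem Rain.sub {S : X2.St V n} {G : SimpleGraph V} {i : Fin n} {σ : Bool} {m m' : ℕ} {R : ℕ → ℕ → V}
    (h : Rain S G i σ m R) {κ : ℕ → ℕ} (h1 : ∀ k < m', κ k < m)
    (h2 : ∀ k l, k < l → l < m' → κ k < κ l) : Rain S G i σ m' (fun i k => R i (κ k)) := by
  have hinj : ∀ k < m', ∀ l < m', κ k = κ l → k = l := by
    intro k hk l hl hkl
    by_contra hne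
    rcases lt_or_gt_of_ne hne with h3 | h3
    · exact (h2 k l h3 hl).ne hkl
    · exact (h2 l k h3 hk).ne' hkl
  have hL : ∀ k, LL σ (fun i k => R i (κ k)) k = LL σ R (κ k) := fun k => rfl
  have hR : ∀ k, RL σ (fun i k => R i (κ k)) k = RL σ R (κ k) := fun k => rfl
  exact
    { toDR := h.toDR.sub h1 h2
      cu := fun k hk => h.cu _ (h1 k hk)
      ct := fun k hk => h.ct _ (h1 k hk)
      cls := fun j hj k hk l hl => h.cls j hj _ (h1 k hk) _ (h1 l hl)
      tc := fun k hk => h.tc _ (h1 k hk)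
      ts := fun k hk => h.ts _ (h1 k hk)
      tw := fun k hk => h.tw _ (h1 k hk)
      mate := fun k hk => h.mate _ (h1 k hk)
      exc := fun j hj j' hj' k hk l hl he => by
        obtain ⟨h3, h4⟩ := h.exc j hj j' hj' _ (h1 k hk) _ (h1 l hl) he
        exact ⟨hinj k hk l hl h3, h4⟩
      dec := fun k l hkl hl => by rw [hL, hL]; exact h.dec _ _ (h2 k l hkl hl) (h1 l hl)
      inc := fun k l hkl hl => by rw [hR, hR]; exact h.inc _ _ (h2 k l hkl hl) (h1 l hl)
      bet := fun k hk l hl => by rw [hL, hR]; exact h.bet _ (h1 k hk) _ (h1 l hl) }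

theorem c_LL {S : X2.St V n} {G : SimpleGraph V} {i : Fin n} {σ : Bool} {m : ℕ} {R : ℕ → ℕ → V}
    (h : Rain S G i σ m R) {k : ℕ} (hk : k < m) : S.c (LL σ R k) = i := by
  cases σ
  · exact h.ct k hk
  · exact h.cu k hk

theorem c_RL {S : X2.St V n} {G : SimpleGraph V} {i : Fin n} {σ : Bool} {m : ℕ} {R : ℕ → ℕ → V}
    (h : Rain S G i σ m R) {k : ℕ} (hk : k < m) : S.c (RL σ R k) = i := by
  cases σ
  · exact h.cu k hk
  · exact h.ct k hk

/-! ### positions seen by a rainbow -/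

/-- left, inside, right -/
inductive Pos : Type
  | L : Pos
  | I : Pos
  | R : Pos
  deriving DecidableEq

/-- the position of a vertex `z` seen by a rainbow of sign `σ`; `p = true` iff `z ~ c k`, `q = true` iff `z ~ w k`:
`D`-adjacent to both: outside, beyond the rail `u`; only to `w`: inside; to none: outside, beyond the rail `t` -/
def pos (σ p q : Bool) : Pos :=
  bif p then (bif q then (bif σ then Pos.R else Pos.L) else Pos.I) else (bif σ then Pos.L else Pos.R)

/-- the position of `z` with the table `a` (see `HZ`) -/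
def posZ (σ : Bool) (a : ℕ → Bool) : Pos := pos σ (a 1) (a 3)

end Pool.Agent.MPd439b2.CE
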