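import Pool.Agent.Lib.MP_d439b2_co.CE.WrapC
import Pool.Agent.Lib.MP_d439b2_co.CE.Ord
import Pool.Agent.Lib.MP_d439b2_co.CE.Sl
import Pool.Agent.Lib.MP_d439b2_co.CE.Or
import Pool.Agent.Lib.MP_d439b2_co.CE.Two
import Pool.Agent.Lib.MP_d439b2_co.CE.Snd
import Pool.Agent.Lib.MP_d439b2_co.CE.ClA
import Pool.Agent.Lib.MP_d439b2_co.CE.ClB
import Pool.Agent.Lib.MP_d439b2_co.CE.GoodP
import Pool.Agent.Lib.MP_d439b2_co.CE.Good

/-!
# MP_d439b2_co, CE: the clean end, assembly (helper23)
-/

set_option autoImplicit false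

namespace Pool.Agent.MPd439b2.CE

open Pool.Agent.MPd439b2

/-- two rainbows and a vertex, unconditional -/
theorem pTwo : S_Two := two r1 zt pSl (orF pt ord)

/-- good intervals of positive rainbows, unconditional -/
theorem pGoodP : S_GoodP := goodP r1 r5 ord pSl pTwo (snd r1 pSl) (clA pSl r1) clB

/-- **Good intervals**, unconditional -/
theorem goodR : S_Good := good pGoodP

end Pool.Agent.MPd439b2.CE
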